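import Pool.Agent.LamGold.Desc

set_option autoImplicit false

/-!
# There is no one-sided sign world modulo a prime `q ≥ 5`
-/

namespace Pool.Agent.LamGold

variable {q : ℕ} {g : ℕ → ℤ}

theorem World.eq_fs_mul (W : World q g) {n : ℕ} (hn : 0 < n) : g n = fs n * g 1 := by
  have := W.mul n 1 hn one_pos
  rwa [mul_one] at this

theorem FF_sq (W : World q g) (hqp : q.Prime) (hq5 : 5 < q) {a : ZMod q} (ha : a ≠ 0) :
    FF q g (a * a) = g 1 := by
  have hq2 : q % 2 = 1 := by
    rcases hqp.eq_two_or_odd with h | h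
    · omega
    · exact h
  have key : ∀ x : ℕ, 0 < x → 2 * x < q → FF q g ((x : ZMod q) * (x : ZMod q)) = g 1 := by
    intro x hx hxq
    rw [TT_all W hqp hq5 x hx hxq, FF_nat_lt (by omega) hx hxq, W.eq_fs_mul hx, ← mul_assoc,
      fs_sq, one_mul]
  obtain ⟨x, hx, hxq, rfl | rfl⟩ := exists_nat_rep hq2 ha
  · exact key x hx hxq
  · rw [neg_mul_neg]; exact key x hx hxq

theorem not_isSquare_prime (W : World q g) (hqp : q.Prime) (hq5 : 5 < q) {p : ℕ}
    (hp : p.Prime) (hpq : 2 * p < q) : ¬ IsSquare ((p : ℕ) : ZMod q) := by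
  rintro ⟨a, ha⟩
  have h1 : FF q g (p : ZMod q) = - g 1 := by
    rw [FF_nat_lt (by omega) hp.pos hpq, W.eq_fs_mul hp.pos, fs_prime hp]; ring
  have ha0 : a ≠ 0 := by
    rintro rfl
    rw [ha, mul_zero, FF_zero] at h1
    rcases W.val 1 one_pos with h | h <;> omega
  rw [ha, FF_sq W hqp hq5 ha0] at h1
  rcases W.val 1 one_pos with h | h <;> omega

theorem not_isSquare_neg_one (W : World q g) (hqp : q.Prime) (hq5 : 5 < q) :
    ¬ IsSquare (-1 : ZMod q) := by
  have hq2 : q % 2 = 1 := by
    rcases hqp.eq_two_or_odd with h | h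
    · omega
    · exact h
  rintro ⟨a, ha⟩
  have h0 : FF q g ((1 : ℕ) : ZMod q) = g 1 := FF_nat_lt (by omega) one_pos (by omega)
  have h1 : FF q g (-1 : ZMod q) = - g 1 := by
    rw [FF_neg hq2]
    rw [Nat.cast_one] at h0
    rw [h0]
  have ha0 : a ≠ 0 := by
    rintro rfl
    rw [ha, mul_zero, FF_zero] at h1
    rcases W.val 1 one_pos with h | h <;> omega
  rw [ha, FF_sq W hqp hq5 ha0] at h1
  rcases W.val 1 one_pos with h | h <;> omega

theorem no_world_prime (hqp : q.Prime) (hq : 5 ≤ q) (W : World q g) : False := by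
  rcases hq.lt_or_eq with hq5 | hq5
  · haveI : Fact q.Prime := ⟨hqp⟩
    have h1 : q % 4 = 3 := by
      by_contra h
      exact not_isSquare_neg_one W hqp hq5 (ZMod.exists_sq_eq_neg_one_iff.2 h)
    have h2 : ¬ IsSquare (2 : ZMod q) := by
      have := not_isSquare_prime W hqp hq5 Nat.prime_two (by omega)
      simpa using this
    have h3 : q % 8 = 3 := by
      rw [ZMod.exists_sq_eq_two_iff (by omega)] at h2
      omega
    obtain ⟨m, hm⟩ : ∃ m, q + 1 = 4 * m := ⟨(q + 1) / 4, by omega⟩
    have hm1 : m ≠ 1 := by omega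
    obtain ⟨p, hp, hpm⟩ := Nat.exists_prime_and_dvd hm1
    haveI : Fact p.Prime := ⟨hp⟩
    have hple : p ≤ m := Nat.le_of_dvd (by omega) hpm
    have hpq : 2 * p < q := by omega
    have hns := not_isSquare_prime W hqp hq5 hp hpq
    have hp2 : p ≠ 2 := by
      rintro rfl
      omega
    have hqneg : ((q : ℕ) : ZMod p) = -1 := by
      have h5 : p ∣ q + 1 := by rw [hm]; exact Dvd.dvd.mul_left hpm 4
      have h6 : ((q + 1 : ℕ) : ZMod p) = 0 := (ZMod.natCast_eq_zero_iff _ _).2 h5
      push_cast at h6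
      linear_combination h6
    have hpodd : p % 4 = 1 ∨ p % 4 = 3 := by
      have := hp.eq_two_or_odd
      omega
    rcases hpodd with h4 | h4
    · apply hns
      rw [← ZMod.exists_sq_eq_prime_iff_of_mod_four_eq_one h4 (by omega), hqneg]
      rw [ZMod.exists_sq_eq_neg_one_iff]
      omega
    · have h7 := ZMod.exists_sq_eq_prime_iff_of_mod_four_eq_three (p := p) (q := q) h4 h1
        (by omega)
      rw [hqneg, ZMod.exists_sq_eq_neg_one_iff] at h7
      have h8 : ¬ ¬ IsSquare ((p : ℕ) : ZMod q) := fun h => (h7.2 h) h4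
      exact h8 hns
  · subst hq5
    have t2 := TT_two W (by norm_num) (by norm_num)
    have h1 : FF 5 g ((2 : ℕ) * ((2 : ℕ) * ((1 : ℕ) : ZMod 5))) = FF 5 g ((1 : ℕ) : ZMod 5) := by
      rw [t2, t2, fs_two]; ring
    have h2 : ((2 : ℕ) * ((2 : ℕ) * ((1 : ℕ) : ZMod 5))) = -((1 : ℕ) : ZMod 5) := by decide
    rw [h2, FF_neg (by norm_num), FF_nat_lt (by norm_num) (by norm_num) (by norm_num)] at h1
    rcases W.val 1 one_pos with h | h <;> omega

theorem no_world_8 (W : World 8 g) : False := by
  have h1 := W.T (x := 3) (y := 5) (by norm_num) (by norm_num) (by norm_num)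
  have h2 := W.T (x := 4) (y := 4) (by norm_num) (by norm_num) (by norm_num)
  rw [W.eq_fs_mul (n := 3) (by norm_num), W.eq_fs_mul (n := 5) (by norm_num), fs_three,
    fs_five] at h1
  rw [W.eq_fs_mul (n := 4) (by norm_num), fs_four] at h2
  omega

theorem fs_six : fs 6 = 1 := by
  rw [show 6 = 2 * 3 from rfl, fs_mul (by norm_num) (by norm_num), fs_two, fs_three]; norm_num
theorem fs_thirteen : fs 13 = -1 := fs_prime (by norm_num)
theorem fs_twentysix : fs 26 = 1 := by
  rw [show 26 = 2 * 13 from rfl, fs_mul (by norm_num) (by norm_num), fs_two, fs_thirteen]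
  norm_num
theorem fs_twenty : fs 20 = -1 := by
  rw [show 20 = 4 * 5 from rfl, fs_mul (by norm_num) (by norm_num), fs_four, fs_five]
  norm_num

theorem no_world_12 (W : World 12 g) : False := by
  have h1 := W.T (x := 6) (y := 6) (by norm_num) (by norm_num) (by norm_num)
  have h2 := W.T (x := 5) (y := 7) (by norm_num) (by norm_num) (by norm_num)
  rw [W.eq_fs_mul (n := 6) (by norm_num), fs_six] at h1
  rw [W.eq_fs_mul (n := 5) (by norm_num), W.eq_fs_mul (n := 7) (by norm_num), fs_five,
    fs_seven] at h2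
  omega

theorem no_world_18 (W : World 18 g) : False := by
  have h1 := W.T (x := 9) (y := 9) (by norm_num) (by norm_num) (by norm_num)
  have h2 := W.T (x := 5) (y := 13) (by norm_num) (by norm_num) (by norm_num)
  rw [W.eq_fs_mul (n := 9) (by norm_num), fs_nine] at h1
  rw [W.eq_fs_mul (n := 5) (by norm_num), W.eq_fs_mul (n := 13) (by norm_num), fs_five,
    fs_thirteen] at h2
  omega

theorem no_world_27 (W : World 27 g) : False := by
  have h1 := W.T (x := 1) (y := 26) (by norm_num) (by norm_num) (by norm_num)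
  have h2 := W.T (x := 7) (y := 20) (by norm_num) (by norm_num) (by norm_num)
  rw [W.eq_fs_mul (n := 26) (by norm_num), fs_twentysix] at h1
  rw [W.eq_fs_mul (n := 7) (by norm_num), W.eq_fs_mul (n := 20) (by norm_num), fs_seven,
    fs_twenty] at h2
  omega

/-- Numbers without prime factors other than `2` and `3`. -/
theorem exists_two_three (N : ℕ) (hN : 0 < N) (h : ∀ p, p.Prime → p ∣ N → p < 5) :
    ∃ i j, N = 2 ^ i * 3 ^ j := by
  induction N using Nat.strong_induction_on with
  | _ N ih =>
    by_cases h1 : N = 1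
    · exact ⟨0, 0, by simp [h1]⟩
    obtain ⟨p, hp, hpN⟩ := Nat.exists_prime_and_dvd h1
    obtain ⟨M, hM⟩ := hpN
    have hM0 : 0 < M := Nat.pos_of_ne_zero (by rintro rfl; omega)
    have hMN : M < N := by
      rw [hM]
      have := hp.two_le
      nlinarith
    obtain ⟨i, j, hij⟩ := ih M hMN hM0 (fun r hr hrM => h r hr (by rw [hM]; exact Dvd.dvd.mul_left hrM p))
    have hp5 := h p hp ⟨M, hM⟩
    have h23 : p = 2 ∨ p = 3 := by
      have := hp.two_le
      have : p ≠ 4 := by rintro rfl; revert hp; decide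
      omega
    rcases h23 with rfl | rfl
    · exact ⟨i + 1, j, by rw [hM, hij]; ring⟩
    · exact ⟨i, j + 1, by rw [hM, hij]; ring⟩

/-- One-sided worlds on the divisors of `N`. -/
theorem world_of {N d m : ℕ} {s : ℤ} (hd : 0 < d) (hN : N = d * m) (hs : s = 1 ∨ s = -1)
    (h : ∀ a b : ℕ, 0 < a → 0 < b → a + b = N → fs a = s ∨ fs b = s) :
    World m (fun x => s * fs (d * x)) where
  val := by
    intro n _
    rcases hs with rfl | rfl <;> rcases fs_val (d * n) with e | e <;> simp [e]
  mul := by
    intro k n hk hn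
    have : d * (k * n) = k * (d * n) := by ring
    simp only [this, fs_mul hk (Nat.mul_pos hd hn)]
    ring
  rel := by
    intro x y hx hy hxy
    have := h (d * x) (d * y) (Nat.mul_pos hd hx) (Nat.mul_pos hd hy)
      (by rw [hN, ← hxy]; ring)
    rcases hs with rfl | rfl <;> rcases this with e | e <;> simp [e]

theorem one_sided {N : ℕ} (hN : 0 < N) {s : ℤ} (hs : s = 1 ∨ s = -1)
    (h : ∀ a b : ℕ, 0 < a → 0 < b → a + b = N → fs a = s ∨ fs b = s) :
    N = 1 ∨ N = 2 ∨ N = 3 ∨ N = 4 ∨ N = 6 ∨ N = 9 := by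
  have hp : ∀ p, p.Prime → p ∣ N → p < 5 := by
    intro p hp hpN
    by_contra h5
    push Not at h5
    obtain ⟨d, hd⟩ := hpN
    have hd0 : 0 < d := Nat.pos_of_ne_zero (by rintro rfl; omega)
    exact no_world_prime hp h5 (world_of hd0 (by rw [hd]; ring) hs h)
  have hdiv : ∀ m, m ∣ N → (∀ g : ℕ → ℤ, World m g → False) → False := by
    intro m hm hw
    obtain ⟨d, hd⟩ := hm
    have hd0 : 0 < d := Nat.pos_of_ne_zero (by rintro rfl; omega)
    exact hw _ (world_of hd0 (by rw [hd]; ring) hs h)
  obtain ⟨i, j, hij⟩ := exists_two_three N hN hp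
  have hi : i < 3 := by
    by_contra hcon
    push Not at hcon
    apply hdiv 8 _ (fun _ => no_world_8)
    rw [hij]
    exact Dvd.dvd.mul_right (pow_dvd_pow 2 hcon) _
  have hj : j < 3 := by
    by_contra hcon
    push Not at hcon
    apply hdiv 27 _ (fun _ => no_world_27)
    rw [hij]
    exact Dvd.dvd.mul_left (pow_dvd_pow 3 hcon) _
  interval_cases i <;> interval_cases j
  · left; simpa using hij
  · right; right; left; simpa using hij
  · right; right; right; right; right; simpa using hij
  · right; left; simpa using hij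
  · right; right; right; right; left; simpa using hij
  · exact (hdiv 18 (by rw [hij]; norm_num) (fun _ => no_world_18)).elim
  · right; right; right; left; simpa using hij
  · exact (hdiv 12 (by rw [hij]; norm_num) (fun _ => no_world_12)).elim
  · exact (hdiv 12 (by rw [hij]; norm_num) (fun _ => no_world_12)).elim

/-- Every `N ≥ 4` is a sum of two positive integers with an odd number of prime factors. -/
theorem exists_odd_odd {N : ℕ} (hN : 4 ≤ N) :
    ∃ a b : ℕ, 0 < a ∧ 0 < b ∧ a + b = N ∧ fs a = -1 ∧ fs b = -1 := by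
  by_contra hcon
  push Not at hcon
  have h := one_sided (N := N) (s := 1) (by omega) (Or.inl rfl) (by
    intro a b ha hb hab
    by_cases e : fs a = -1
    · right
      rcases fs_val b with e2 | e2
      · exact e2
      · exact (hcon a b ha hb hab e e2).elim
    · left
      rcases fs_val a with e2 | e2
      · exact e2
      · exact (e e2).elim)
  rcases h with h | h | h | h | h | h
  · omega
  · omega
  · omega
  · exact hcon 2 2 (by norm_num) (by norm_num) (by omega) fs_two fs_two
  · exact hcon 3 3 (by norm_num) (by norm_num) (by omega) fs_three fs_three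
  · exact hcon 2 7 (by norm_num) (by norm_num) (by omega) fs_two fs_seven

/-- Every `N ≥ 10` is a sum of two positive integers with an even number of prime factors. -/
theorem exists_even_even {N : ℕ} (hN : 10 ≤ N) :
    ∃ a b : ℕ, 0 < a ∧ 0 < b ∧ a + b = N ∧ fs a = 1 ∧ fs b = 1 := by
  by_contra hcon
  push Not at hcon
  have h := one_sided (N := N) (s := -1) (by omega) (Or.inr rfl) (by
    intro a b ha hb hab
    by_cases e : fs a = 1
    · right
      rcases fs_val b with e2 | e2
      · exact (hcon a b ha hb hab e e2).elim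
      · exact e2
    · left
      rcases fs_val a with e2 | e2
      · exact (e e2).elim
      · exact e2)
  omega

end Pool.Agent.LamGold
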