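import Pool.Agent.LamGold.R4
import Pool.Agent.LamGold.Odd

set_option autoImplicit false

/-!
# No one-sided world with small elements excluded, `q` large
-/

namespace Pool.Agent.LamGold

variable {q L : ℕ} {g : ℕ → ℤ}

theorem WL.eq_fs_mul (W : WL q L g) {n : ℕ} (hn : 0 < n) : g n = fs n * g 1 := by
  have := W.mul n 1 hn one_pos
  rwa [mul_one] at this

/-- Every class is a quotient of integers of size at most `√q`. -/
theorem thue (hqp : q.Prime) {b : ℕ} (hb : 0 < b) (hbq : b < q) :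
    ∃ k r : ℕ, 0 < k ∧ 0 < r ∧ k * k ≤ q ∧ r * r ≤ q ∧
      (((k : ℕ) : ZMod q) * (b : ZMod q) = (r : ZMod q) ∨
        ((k : ℕ) : ZMod q) * (b : ZMod q) = -(r : ZMod q)) := by
  obtain ⟨s, hs⟩ : ∃ s, s = Nat.sqrt q := ⟨_, rfl⟩
  have hs1 : s * s ≤ q := by rw [hs]; exact Nat.sqrt_le q
  have hs2 : q < (s + 1) * (s + 1) := by rw [hs]; exact Nat.lt_succ_sqrt q
  have hq2 := hqp.two_le
  have hs0 : 0 < s := by
    rcases Nat.eq_zero_or_pos s with h | h
    · rw [h] at hs2; omega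
    · exact h
  obtain ⟨k, i, hk0, hkp, hki⟩ := dirichlet (q := q) (b := b) (p := s + 1) (by omega)
    (by omega)
  have hkq : k < q := by
    have : s * 1 ≤ s * s := Nat.mul_le_mul_left s hs0
    by_contra hcon
    have h3 : s = q := by omega
    rw [h3] at hs1
    have : q * 2 ≤ q * q := Nat.mul_le_mul_left q hq2
    omega
  have hqk : ¬ q ∣ k := fun h => by have := Nat.le_of_dvd hk0 h; omega
  have hqb : ¬ q ∣ b := fun h => by have := Nat.le_of_dvd hb h; omega
  have hne : (k : ℤ) * b - i * q ≠ 0 := by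
    intro h
    have h1 : k * b = i * q := by
      have : ((k * b : ℕ) : ℤ) = ((i * q : ℕ) : ℤ) := by push_cast; linarith
      exact_mod_cast this
    have h2 : q ∣ k * b := ⟨i, by rw [h1]; ring⟩
    rcases (Nat.Prime.dvd_mul hqp).1 h2 with h | h
    · exact hqk h
    · exact hqb h
  obtain ⟨r, hr⟩ : ∃ r, r = Int.natAbs ((k : ℤ) * b - i * q) := ⟨_, rfl⟩
  rw [← hr] at hki
  have hr0 : 0 < r := by rw [hr]; exact Int.natAbs_pos.2 hne
  have hrs : r ≤ s := by
    by_contra hcon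
    push Not at hcon
    have : (s + 1) * (s + 1) ≤ (s + 1) * r := Nat.mul_le_mul_left _ hcon
    omega
  refine ⟨k, r, hk0, hr0, ?_, ?_, ?_⟩
  · exact le_trans (Nat.mul_le_mul (by omega) (by omega)) hs1
  · exact le_trans (Nat.mul_le_mul hrs hrs) hs1
  · rcases Int.natAbs_eq ((k : ℤ) * b - i * q) with h | h
    · left
      rw [← hr] at h
      have : (((k : ℤ) * b : ℤ) : ZMod q) = ((i * q + r : ℤ) : ZMod q) := by
        rw [← h]; congr 1; ring
      push_cast at this
      rw [ZMod.natCast_self] at this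
      rw [this]; simp
    · right
      rw [← hr] at h
      have : (((k : ℤ) * b : ℤ) : ZMod q) = ((i * q - r : ℤ) : ZMod q) := by
        have : (k : ℤ) * b = i * q - r := by linarith
        rw [this]
      push_cast at this
      rw [ZMod.natCast_self] at this
      rw [this]; simp

theorem FH_sq (W : WL q L g) (hqp : q.Prime) (hq5 : 5 < q) (hL : 160 * L < q)
    (hL2 : 4 * (L * L) ≤ q) {a : ZMod q} (ha : a ≠ 0) :
    FF q (HH q L g) (a * a) = g 1 := by
  have hq2 : q % 2 = 1 := by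
    rcases hqp.eq_two_or_odd with h | h
    · omega
    · exact h
  have tall := lTT_all W hqp hq5 hL hL2
  have h1 : FF q (HH q L g) ((1 : ℕ) : ZMod q) = g 1 := FH_lo (by omega) one_pos (by omega)
  have key : ∀ x : ℕ, 0 < x → x < q →
      FF q (HH q L g) ((x : ZMod q) * (x : ZMod q)) = g 1 := by
    intro x hx hxq
    obtain ⟨k, r, hk0, hr0, hk2, hr2, h⟩ := thue hqp hx hxq
    have e1 : FF q (HH q L g) ((k : ZMod q) * ((k : ZMod q) * ((x : ZMod q) * (x : ZMod q)))) =
        FF q (HH q L g) ((x : ZMod q) * (x : ZMod q)) := by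
      rw [tall k hk0 hk2, tall k hk0 hk2, ← mul_assoc, fs_sq, one_mul]
    have e2 : FF q (HH q L g) ((r : ZMod q) * ((r : ZMod q) * ((1 : ℕ) : ZMod q))) = g 1 := by
      rw [tall r hr0 hr2, tall r hr0 hr2, ← mul_assoc, fs_sq, one_mul, h1]
    rw [← e1, ← e2]
    congr 1
    have e3 : (k : ZMod q) * ((k : ZMod q) * ((x : ZMod q) * (x : ZMod q))) =
        ((k : ZMod q) * (x : ZMod q)) * ((k : ZMod q) * (x : ZMod q)) := by ring
    rw [e3]
    rcases h with h | h
    · rw [h]; push_cast; ring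
    · rw [h]; push_cast; ring
  obtain ⟨x, hx, hxq, rfl | rfl⟩ := exists_nat_rep hq2 ha
  · exact key x hx (by omega)
  · rw [neg_mul_neg]; exact key x hx (by omega)

theorem lnot_isSquare_prime (W : WL q L g) (hqp : q.Prime) (hq5 : 5 < q) (hL : 160 * L < q)
    (hL2 : 4 * (L * L) ≤ q) {p : ℕ} (hp : p.Prime) (hpq : 2 * p + 3 * L < q) :
    ¬ IsSquare ((p : ℕ) : ZMod q) := by
  rintro ⟨a, ha⟩
  have h1 : FF q (HH q L g) (p : ZMod q) = - g 1 := by
    rw [FH_lo (by omega) hp.pos hpq, W.eq_fs_mul hp.pos, fs_prime hp]; ring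
  have ha0 : a ≠ 0 := by
    rintro rfl
    rw [ha, mul_zero, FF_zero] at h1
    rcases W.val 1 one_pos with h | h <;> omega
  rw [ha, FH_sq W hqp hq5 hL hL2 ha0] at h1
  rcases W.val 1 one_pos with h | h <;> omega

theorem lnot_isSquare_neg_one (W : WL q L g) (hqp : q.Prime) (hq5 : 5 < q)
    (hL : 160 * L < q) (hL2 : 4 * (L * L) ≤ q) : ¬ IsSquare (-1 : ZMod q) := by
  have hq2 : q % 2 = 1 := by
    rcases hqp.eq_two_or_odd with h | h
    · omega
    · exact h
  rintro ⟨a, ha⟩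
  have h0 : FF q (HH q L g) ((1 : ℕ) : ZMod q) = g 1 := FH_lo (by omega) one_pos (by omega)
  have h1 : FF q (HH q L g) (-1 : ZMod q) = - g 1 := by
    rw [FF_neg hq2]
    rw [Nat.cast_one] at h0
    rw [h0]
  have ha0 : a ≠ 0 := by
    rintro rfl
    rw [ha, mul_zero, FF_zero] at h1
    rcases W.val 1 one_pos with h | h <;> omega
  rw [ha, FH_sq W hqp hq5 hL hL2 ha0] at h1
  rcases W.val 1 one_pos with h | h <;> omega

theorem lno_world (hqp : q.Prime) (hq5 : 5 < q) (hL : 160 * L < q) (hL2 : 4 * (L * L) ≤ q)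
    (W : WL q L g) : False := by
  have : Fact q.Prime := ⟨hqp⟩
  have h1 : q % 4 = 3 := by
    by_contra h
    exact lnot_isSquare_neg_one W hqp hq5 hL hL2 (ZMod.exists_sq_eq_neg_one_iff.2 h)
  have h2 : ¬ IsSquare (2 : ZMod q) := by
    have := lnot_isSquare_prime W hqp hq5 hL hL2 Nat.prime_two (by omega)
    simpa using this
  have h3 : q % 8 = 3 := by
    rw [ZMod.exists_sq_eq_two_iff (by omega)] at h2
    omega
  obtain ⟨m, hm⟩ : ∃ m, q + 1 = 4 * m := ⟨(q + 1) / 4, by omega⟩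
  have hm1 : m ≠ 1 := by omega
  obtain ⟨p, hp, hpm⟩ := Nat.exists_prime_and_dvd hm1
  have : Fact p.Prime := ⟨hp⟩
  have hple : p ≤ m := Nat.le_of_dvd (by omega) hpm
  have hns := lnot_isSquare_prime W hqp hq5 hL hL2 hp (by omega)
  have hp2 : p ≠ 2 := by
    rintro rfl
    omega
  have hqneg : ((q : ℕ) : ZMod p) = -1 := by
    have h5 : p ∣ q + 1 := by rw [hm]; exact Dvd.dvd.mul_left hpm 4
    have h6 : ((q + 1 : ℕ) : ZMod p) = 0 := (ZMod.natCast_eq_zero_iff _ _).2 h5
    push_cast at h6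
    linear_combination h6
  have hpodd : p % 4 = 1 ∨ p % 4 = 3 := by
    have := hp.eq_two_or_odd
    omega
  rcases hpodd with h4 | h4
  · apply hns
    rw [← ZMod.exists_sq_eq_prime_iff_of_mod_four_eq_one h4 (by omega), hqneg]
    rw [ZMod.exists_sq_eq_neg_one_iff]
    omega
  · have h7 := ZMod.exists_sq_eq_prime_iff_of_mod_four_eq_three (p := p) (q := q) h4 h1
      (by omega)
    rw [hqneg, ZMod.exists_sq_eq_neg_one_iff] at h7
    have h8 : ¬ ¬ IsSquare ((p : ℕ) : ZMod q) := fun h => (h7.2 h) h4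
    exact h8 hns

end Pool.Agent.LamGold
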