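import Pool.Agent.LamGold.Basic

set_option autoImplicit false

/-!
# Small moduli
-/

namespace Pool.Agent.LamGold

/-- The primes below `83`. -/
def pf : List ℕ := [2, 3, 5, 7, 11, 13, 17, 19, 23, 29, 31, 37, 41, 43, 47, 53, 59, 61, 67, 71,
  73, 79]

/-- Parity of the number of prime factors, for small numbers. -/
def par : ℕ → ℕ → Bool
  | 0, _ => false
  | f + 1, n =>
    if n ≤ 1 then false else
      match pf.find? (fun r => n % r == 0) with
      | some r => !(par f (n / r))
      | none => true

theorem pf_prime : ∀ r ∈ pf, r.Prime := by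
  intro r hr
  simp only [pf, List.mem_cons, List.not_mem_nil, or_false] at hr
  rcases hr with rfl | rfl | rfl | rfl | rfl | rfl | rfl | rfl | rfl | rfl | rfl | rfl | rfl |
    rfl | rfl | rfl | rfl | rfl | rfl | rfl | rfl | rfl <;> norm_num

theorem mem_pf {p : ℕ} (hp : p.Prime) (h : p < 83) : p ∈ pf := by
  revert hp
  interval_cases p <;> first | (intro _; simp [pf]; done) | (intro hp; exfalso; revert hp; norm_num)

theorem par_eq (f : ℕ) : ∀ n : ℕ, 0 < n → n < 2 ^ f → n < 6889 →
    fs n = if par f n then -1 else 1 := by
  induction f with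
  | zero => intro n h0 h1; exfalso; rw [pow_zero] at h1; omega
  | succ f ih =>
    intro n h0 h1 h2
    by_cases hn : n ≤ 1
    · have : n = 1 := by omega
      subst this
      rw [fs_one]
      simp [par]
    · unfold par
      rw [if_neg hn]
      cases hfind : pf.find? (fun r => n % r == 0) with
      | none =>
        have hnone := List.find?_eq_none.1 hfind
        have hprime : n.Prime := by
          by_contra hcon
          have h3 := Nat.minFac_sq_le_self (by omega) hcon
          have h4 : n.minFac < 83 := by
            by_contra h5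
            push Not at h5
            have : 83 ^ 2 ≤ n.minFac ^ 2 := Nat.pow_le_pow_left h5 2
            omega
          have h5 := mem_pf (Nat.minFac_prime (by omega)) h4
          have h6 := hnone _ h5
          apply h6
          have := Nat.mod_eq_zero_of_dvd (Nat.minFac_dvd n)
          simp [this]
        rw [fs_prime hprime]
        simp
      | some r =>
        have h3 := List.find?_some hfind
        have h4 := List.mem_of_find?_eq_some hfind
        have h5 : r.Prime := pf_prime r h4
        have h6 : n % r = 0 := by simpa using h3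
        have h7 : r * (n / r) = n := Nat.mul_div_cancel' (Nat.dvd_of_mod_eq_zero h6)
        have h8 : 0 < n / r := by
          rcases Nat.eq_zero_or_pos (n / r) with h | h
          · rw [h] at h7; omega
          · exact h
        have h9 := h5.two_le
        have h10 : n / r < 2 ^ f := by
          have : 2 * (n / r) ≤ r * (n / r) := Nat.mul_le_mul_right _ h9
          rw [pow_succ] at h1
          omega
        have h11 : n / r ≤ n := Nat.div_le_self n r
        have e1 : fs n = - fs (n / r) := by
          conv_lhs => rw [← h7]
          rw [fs_mul h5.pos h8, fs_prime h5]; ring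
        have e2 := ih (n / r) h8 h10 (by omega)
        rw [e1, e2]
        cases hpar : par f (n / r) <;> simp [hpar]

/-- The check for the modulus `q`. -/
def chk (q : ℕ) : Bool :=
  (decide (13 < q) &&
    (q % 2 == 0 || q % 3 == 0 || q % 5 == 0 || q % 7 == 0 || q % 11 == 0 || q % 13 == 0)) ||
    (List.range 140).any (fun x => decide (q < 4 * (x * x)) && decide (2 * x ≤ q) && par 13 x &&
      par 13 (q - x))

set_option maxRecDepth 100000 in
theorem chk_all : (List.range 6401).all (fun q => decide (q < 5) || chk q) = true := by
  decide +kernel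

theorem small_witness {q : ℕ} (hq : q.Prime) (h5 : 5 ≤ q) (h : q < 6401) :
    ∃ x, 0 < x ∧ q < 4 * (x * x) ∧ 2 * x ≤ q ∧ fs x = -1 ∧ fs (q - x) = -1 := by
  have h1 := List.all_eq_true.1 chk_all q (List.mem_range.2 h)
  have h2 : chk q = true := by
    simp only [Bool.or_eq_true, decide_eq_true_eq] at h1
    rcases h1 with h1 | h1
    · omega
    · exact h1
  unfold chk at h2
  rw [Bool.or_eq_true] at h2
  rcases h2 with h2 | h2
  · exfalso
    simp only [Bool.and_eq_true, Bool.or_eq_true, decide_eq_true_eq, beq_iff_eq] at h2
    obtain ⟨h13, h2⟩ := h2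
    have hk : ∀ r : ℕ, 1 < r → r ≤ 13 → q % r = 0 → False := by
      intro r hr1 hr13 hr
      rcases (Nat.dvd_prime hq).1 (Nat.dvd_of_mod_eq_zero hr) with h | h <;> omega
    rcases h2 with ((((h2 | h2) | h2) | h2) | h2) | h2
    · exact hk 2 (by norm_num) (by norm_num) h2
    · exact hk 3 (by norm_num) (by norm_num) h2
    · exact hk 5 (by norm_num) (by norm_num) h2
    · exact hk 7 (by norm_num) (by norm_num) h2
    · exact hk 11 (by norm_num) (by norm_num) h2
    · exact hk 13 (by norm_num) (by norm_num) h2
  · obtain ⟨x, hx, hx2⟩ := List.any_eq_true.1 h2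
    simp only [Bool.and_eq_true, decide_eq_true_eq] at hx2
    obtain ⟨⟨⟨e1, e2⟩, e3⟩, e4⟩ := hx2
    have hx0 : 0 < x := by
      rcases Nat.eq_zero_or_pos x with h | h
      · subst h; omega
      · exact h
    have hx140 := List.mem_range.1 hx
    refine ⟨x, hx0, e1, e2, ?_, ?_⟩
    · rw [par_eq 13 x hx0 (by omega) (by omega), e3]; simp
    · rw [par_eq 13 (q - x) (by omega) (by omega) (by omega), e4]; simp

end Pool.Agent.LamGold
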