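import Pool.Agent.LamGold.R5
import Pool.Agent.LamGold.R6

set_option autoImplicit false

/-!
# Two summands larger than `√(2n)`
-/

namespace Pool.Agent.LamGold

theorem range_prime {n d q : ℕ} (hq : q.Prime) (h5 : 5 ≤ q) (hn : 2 < n) (hN : 2 * n = d * q)
    (h : ∀ a b : ℕ, a + b = 2 * n → 2 * n < a * a → 2 * n < b * b → fs a = 1 ∨ fs b = 1) :
    False := by
  have hd0 : 0 < d := Nat.pos_of_ne_zero (by rintro rfl; omega)
  have hqodd : q % 2 = 1 := by
    rcases hq.eq_two_or_odd with e | e
    · omega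
    · exact e
  have hdeven : d % 2 = 0 := by
    have h1 : (d * q) % 2 = 0 := by omega
    rw [Nat.mul_mod, hqodd] at h1
    omega
  obtain ⟨e, he⟩ : ∃ e, d = 2 * e := ⟨d / 2, by omega⟩
  have he0 : 0 < e := by omega
  have hne : n = e * q := by
    have h1 : 2 * n = 2 * (e * q) := by rw [hN, he]; ring
    omega
  have hnn : fs n = 1 := by
    have h1 : 2 * n < n * n := Nat.mul_lt_mul_of_pos_right hn (by omega)
    rcases h n n (by ring) h1 h1 with h2 | h2 <;> exact h2
  have hfe : fs e = -1 := by
    rw [hne, fs_mul he0 hq.pos, fs_prime hq] at hnn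
    omega
  have hfd : fs d = 1 := by
    rw [he, fs_mul two_pos he0, fs_two, hfe]; ring
  have hdq : d ≠ q := by omega
  rcases lt_or_gt_of_ne hdq with hlt | hgt
  · -- `d < q`
    by_cases hd2 : d = 2
    · have he1 : e = 1 := by omega
      rw [he1, fs_one] at hfe
      omega
    have hd4 : 4 ≤ d := by omega
    have hsq : ∀ x : ℕ, q < 4 * (x * x) → 2 * n < (d * x) * (d * x) := by
      intro x hx
      calc 2 * n = d * q := hN
        _ < d * (4 * (x * x)) := Nat.mul_lt_mul_of_pos_left hx hd0
        _ ≤ d * (d * (x * x)) := Nat.mul_le_mul_left _ (Nat.mul_le_mul_right _ hd4)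
        _ = (d * x) * (d * x) := by ring
    by_cases hbig : q < 6401
    · obtain ⟨x, hx0, hx1, hx2, hx3, hx4⟩ := small_witness hq h5 hbig
      have hy : x ≤ q - x := by omega
      have hy1 : q < 4 * ((q - x) * (q - x)) :=
        lt_of_lt_of_le hx1 (Nat.mul_le_mul_left 4 (Nat.mul_le_mul hy hy))
      have hsum : d * x + d * (q - x) = 2 * n := by
        rw [← mul_add, hN]
        congr 1
        omega
      rcases h _ _ hsum (hsq x hx1) (hsq _ hy1) with h2 | h2
      · rw [fs_mul hd0 hx0, hfd, hx3] at h2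
        omega
      · rw [fs_mul hd0 (by omega), hfd, hx4] at h2
        omega
    · obtain ⟨L, hL⟩ : ∃ L, L = Nat.sqrt (q / 4) := ⟨_, rfl⟩
      have hL1 : L * L ≤ q / 4 := by rw [hL]; exact Nat.sqrt_le _
      have hL2 : q / 4 < (L + 1) * (L + 1) := by rw [hL]; exact Nat.lt_succ_sqrt _
      have hL3 : 4 * (L * L) ≤ q := by omega
      have hL4 : 160 * L < q := by
        by_contra hcon
        push Not at hcon
        have h1 : 4 * (L * L) ≤ 160 * L := le_trans hL3 hcon
        have h2 : L ≤ 40 := by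
          by_contra h3
          push Not at h3
          have : 41 * L ≤ L * L := Nat.mul_le_mul_right L h3
          omega
        omega
      have hLx : ∀ x : ℕ, L < x → q < 4 * (x * x) := by
        intro x hx
        have : (L + 1) * (L + 1) ≤ x * x := Nat.mul_le_mul hx hx
        omega
      have W : WL q L (fun x => fs (d * x)) := by
        refine ⟨?_, ?_, ?_⟩
        · intro m _
          exact fs_val _
        · intro k m hk hm
          have e1 : d * (k * m) = k * (d * m) := by ring
          simp only [e1]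
          exact fs_mul hk (Nat.mul_pos hd0 hm)
        · intro x y hx hy hxy
          exact h (d * x) (d * y) (by rw [← mul_add, hxy, hN]) (hsq x (hLx x hx))
            (hsq y (hLx y hy))
      exact lno_world hq (by omega) hL4 hL3 W
  · have W : World q (fun x => fs (d * x)) := by
      have hsq : ∀ x : ℕ, 0 < x → 2 * n < (d * x) * (d * x) := by
        intro x hx
        have hxx : 1 ≤ x * x := Nat.mul_pos hx hx
        calc 2 * n = d * q := hN
          _ < d * d := Nat.mul_lt_mul_of_pos_left hgt hd0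
          _ ≤ d * d * (x * x) := Nat.le_mul_of_pos_right _ hxx
          _ = (d * x) * (d * x) := by ring
      refine ⟨?_, ?_, ?_⟩
      · intro m _
        exact fs_val _
      · intro k m hk hm
        have e1 : d * (k * m) = k * (d * m) := by ring
        simp only [e1]
        exact fs_mul hk (Nat.mul_pos hd0 hm)
      · intro x y hx hy hxy
        exact h (d * x) (d * y) (by rw [← mul_add, hxy, hN]) (hsq x hx) (hsq y hy)
    exact no_world_prime hq h5 W

theorem range_small {n d a₁ b₁ a₂ b₂ : ℕ} (hd : 0 < d)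
    (h : ∀ a b : ℕ, a + b = 2 * n → 2 * n < a * a → 2 * n < b * b → fs a = 1 ∨ fs b = 1)
    (hs1 : (a₁ + b₁) * d = 2 * n) (hs2 : (a₂ + b₂) * d = 2 * n)
    (q1 : a₁ + b₁ < a₁ * a₁) (q2 : a₁ + b₁ < b₁ * b₁)
    (q3 : a₂ + b₂ < a₂ * a₂) (q4 : a₂ + b₂ < b₂ * b₂)
    (f1 : fs a₁ = 1) (f2 : fs b₁ = 1) (f3 : fs a₂ = -1) (f4 : fs b₂ = -1) : False := by
  have key : ∀ m a : ℕ, m * d = 2 * n → m < a * a → 2 * n < (a * d) * (a * d) := by
    intro m a hm hma
    calc 2 * n = m * d := hm.symm
      _ < a * a * d := Nat.mul_lt_mul_of_pos_right hma hd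
      _ ≤ a * a * d * d := Nat.le_mul_of_pos_right _ hd
      _ = (a * d) * (a * d) := by ring
  have pos : ∀ m a : ℕ, m < a * a → 0 < a := by
    intro m a hma
    rcases Nat.eq_zero_or_pos a with h0 | h0
    · subst h0; omega
    · exact h0
  have h1 := h (a₁ * d) (b₁ * d) (by rw [← add_mul, hs1]) (key _ _ hs1 q1) (key _ _ hs1 q2)
  have h2 := h (a₂ * d) (b₂ * d) (by rw [← add_mul, hs2]) (key _ _ hs2 q3) (key _ _ hs2 q4)
  rw [fs_mul (pos _ _ q1) hd, fs_mul (pos _ _ q2) hd, f1, f2] at h1
  rw [fs_mul (pos _ _ q3) hd, fs_mul (pos _ _ q4) hd, f3, f4] at h2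
  omega

/-- For every `n > 2` there are `a + b = 2n` with `a, b > √(2n)` and an odd number of prime
factors each. -/
theorem range_exists {n : ℕ} (hn : 2 < n) :
    ∃ a b : ℕ, a + b = 2 * n ∧ 2 * n < a * a ∧ 2 * n < b * b ∧ fs a = -1 ∧ fs b = -1 := by
  by_contra hcon
  push Not at hcon
  have h : ∀ a b : ℕ, a + b = 2 * n → 2 * n < a * a → 2 * n < b * b →
      fs a = 1 ∨ fs b = 1 := by
    intro a b h1 h2 h3
    by_cases e : fs a = -1
    · right
      rcases fs_val b with e2 | e2
      · exact e2
      · exact (hcon a b h1 h2 h3 e e2).elim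
    · left
      rcases fs_val a with e2 | e2
      · exact e2
      · exact (e e2).elim
  have hp : ∀ p, p.Prime → p ∣ 2 * n → p < 5 := by
    intro p hp hpN
    by_contra h5
    push Not at h5
    obtain ⟨d, hd⟩ := hpN
    exact range_prime (d := d) hp h5 hn (by rw [hd]; ring) h
  obtain ⟨i, j, hij⟩ := exists_two_three (2 * n) (by omega) hp
  have h8 : ¬ 8 ∣ 2 * n := by
    rintro ⟨d, hd⟩
    have hd0 : 0 < d := Nat.pos_of_ne_zero (by rintro rfl; omega)
    have f16 := fs_four
    by_cases hfd : fs d = 1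
    · have h1 := h (3 * d) (5 * d) (by omega) (by nlinarith) (by nlinarith)
      rw [fs_mul (by norm_num) hd0, fs_mul (by norm_num) hd0, fs_three, fs_five] at h1
      omega
    · have h1 := h (4 * d) (4 * d) (by omega) (by nlinarith) (by nlinarith)
      rw [fs_mul (by norm_num) hd0, fs_four] at h1
      omega
  have h12 : ¬ 12 ∣ 2 * n := by
    rintro ⟨d, hd⟩
    have hd0 : 0 < d := Nat.pos_of_ne_zero (by rintro rfl; omega)
    exact range_small (a₁ := 6) (b₁ := 6) (a₂ := 5) (b₂ := 7) hd0 h (by omega) (by omega)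
      (by norm_num) (by norm_num) (by norm_num) (by norm_num) fs_six fs_six fs_five fs_seven
  have h18 : ¬ 18 ∣ 2 * n := by
    rintro ⟨d, hd⟩
    have hd0 : 0 < d := Nat.pos_of_ne_zero (by rintro rfl; omega)
    exact range_small (a₁ := 9) (b₁ := 9) (a₂ := 5) (b₂ := 13) hd0 h (by omega) (by omega)
      (by norm_num) (by norm_num) (by norm_num) (by norm_num) fs_nine fs_nine fs_five
      fs_thirteen
  have hi0 : 0 < i := by
    rcases Nat.eq_zero_or_pos i with h0 | h0
    · exfalso
      rw [h0, pow_zero, one_mul] at hij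
      have h1 : (3 ^ j) % 2 = 1 := by
        rw [Nat.pow_mod]; simp
      omega
    · exact h0
  have hi : i < 3 := by
    by_contra hc
    push Not at hc
    apply h8
    rw [hij]
    exact Dvd.dvd.mul_right (pow_dvd_pow 2 hc) _
  have hj : j < 2 := by
    by_contra hc
    push Not at hc
    apply h18
    rw [hij]
    have h1 : 2 * 3 ^ 2 ∣ 2 ^ i * 3 ^ j :=
      mul_dvd_mul (dvd_pow_self 2 hi0.ne') (pow_dvd_pow 3 hc)
    have e18 : 2 * 3 ^ 2 = 18 := by norm_num
    rw [e18] at h1
    exact h1
  interval_cases i <;> interval_cases j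
  · omega
  · have hn3 : n = 3 := by omega
    subst hn3
    have h1 := h 3 3 (by norm_num) (by norm_num) (by norm_num)
    rw [fs_three] at h1
    omega
  · omega
  · exact h12 (by rw [hij]; norm_num)

end Pool.Agent.LamGold
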