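import Mathlib

set_option autoImplicit false

/-!
# Sign functions without two values `-1` at `x` and `q - x`
-/

namespace Pool.Agent.LamGold

/-- The sign `(-1)^Ω(n)`. -/
def fs (n : ℕ) : ℤ := (-1) ^ (ArithmeticFunction.cardFactors n)

theorem fs_mul {m n : ℕ} (hm : 0 < m) (hn : 0 < n) : fs (m * n) = fs m * fs n := by
  unfold fs
  rw [ArithmeticFunction.cardFactors_mul hm.ne' hn.ne', pow_add]

theorem fs_prime {p : ℕ} (hp : p.Prime) : fs p = -1 := by
  unfold fs
  rw [ArithmeticFunction.cardFactors_apply_prime hp]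
  norm_num

theorem fs_one : fs 1 = 1 := by
  unfold fs
  simp

theorem fs_val (n : ℕ) : fs n = 1 ∨ fs n = -1 := by
  unfold fs
  exact neg_one_pow_eq_or ℤ _

theorem fs_eq_neg_one_iff (n : ℕ) : fs n = -1 ↔ Odd (ArithmeticFunction.cardFactors n) := by
  unfold fs
  rw [neg_one_pow_eq_neg_one_iff_odd]
  norm_num

theorem fs_eq_one_iff (n : ℕ) : fs n = 1 ↔ Even (ArithmeticFunction.cardFactors n) := by
  unfold fs
  rw [neg_one_pow_eq_one_iff_even]
  norm_num

theorem fs_ne_zero (n : ℕ) : fs n ≠ 0 := by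
  rcases fs_val n with h | h <;> rw [h] <;> norm_num

theorem fs_sq (n : ℕ) : fs n * fs n = 1 := by
  rcases fs_val n with h | h <;> rw [h] <;> norm_num

theorem fs_two : fs 2 = -1 := fs_prime Nat.prime_two
theorem fs_three : fs 3 = -1 := fs_prime Nat.prime_three
theorem fs_five : fs 5 = -1 := fs_prime Nat.prime_five
theorem fs_seven : fs 7 = -1 := fs_prime (by norm_num)
theorem fs_four : fs 4 = 1 := by
  rw [show 4 = 2 * 2 from rfl, fs_mul (by norm_num) (by norm_num), fs_two]; norm_num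
theorem fs_eight : fs 8 = -1 := by
  rw [show 8 = 2 * 4 from rfl, fs_mul (by norm_num) (by norm_num), fs_two, fs_four]; norm_num
theorem fs_nine : fs 9 = 1 := by
  rw [show 9 = 3 * 3 from rfl, fs_mul (by norm_num) (by norm_num), fs_three]; norm_num
theorem fs_sixteen : fs 16 = 1 := by
  rw [show 16 = 4 * 4 from rfl, fs_mul (by norm_num) (by norm_num), fs_four]; norm_num

/-- A sign function `g` on the positive integers with `g(kn) = (-1)^Ω(k) g(n)` such that
`g(x) = g(y) = -1` is impossible for positive `x, y` with `x + y = q`. -/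
structure World (q : ℕ) (g : ℕ → ℤ) : Prop where
  val : ∀ n, 0 < n → g n = 1 ∨ g n = -1
  mul : ∀ k n, 0 < k → 0 < n → g (k * n) = fs k * g n
  rel : ∀ x y, 0 < x → 0 < y → x + y = q → g x = 1 ∨ g y = 1

variable {q : ℕ} {g : ℕ → ℤ}

theorem World.T (W : World q g) {x y : ℕ} (hx : 0 < x) (hy : 0 < y) (h : x + y = q) :
    g x = 1 ∨ g y = 1 := W.rel x y hx hy h

theorem World.m2 (W : World q g) {n : ℕ} (hn : 0 < n) : g (2 * n) = - g n := by
  rw [W.mul 2 n (by norm_num) hn, fs_two]; ring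
theorem World.m3 (W : World q g) {n : ℕ} (hn : 0 < n) : g (3 * n) = - g n := by
  rw [W.mul 3 n (by norm_num) hn, fs_three]; ring
theorem World.m4 (W : World q g) {n : ℕ} (hn : 0 < n) : g (4 * n) = g n := by
  rw [W.mul 4 n (by norm_num) hn, fs_four]; ring
theorem World.m5 (W : World q g) {n : ℕ} (hn : 0 < n) : g (5 * n) = - g n := by
  rw [W.mul 5 n (by norm_num) hn, fs_five]; ring
theorem World.m7 (W : World q g) {n : ℕ} (hn : 0 < n) : g (7 * n) = - g n := by
  rw [W.mul 7 n (by norm_num) hn, fs_seven]; ring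
theorem World.m8 (W : World q g) {n : ℕ} (hn : 0 < n) : g (8 * n) = - g n := by
  rw [W.mul 8 n (by norm_num) hn, fs_eight]; ring
theorem World.m9 (W : World q g) {n : ℕ} (hn : 0 < n) : g (9 * n) = g n := by
  rw [W.mul 9 n (by norm_num) hn, fs_nine]; ring

/-- `a` even, `y < a`. -/
theorem certE1 (W : World q g) {a y : ℕ} (ha : 0 < a) (hy : 0 < y) (h : q = 4 * a + y)
    (hlt : y < 2 * a) (ga : g a = 1) (gy : g y = 1) : False := by
  obtain ⟨w, hw⟩ : ∃ w, 2 * a = y + w := ⟨2 * a - y, by omega⟩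
  have hw0 : 0 < w := by omega
  have h1 := W.T (x := 3 * a) (y := a + y) (by omega) (by omega) (by omega)
  have h2 := W.T (x := 3 * y) (y := 2 * w) (by omega) (by omega) (by omega)
  have h3 := W.T (x := w) (y := 2 * (a + y)) (by omega) (by omega) (by omega)
  rw [W.m3 ha] at h1
  rw [W.m3 hy, W.m2 hw0] at h2
  rw [W.m2 (by omega)] at h3
  omega

/-- `a` even, `a < y < 7a/4` (in terms of `a/2`). -/
theorem certE2 (W : World q g) {a y : ℕ} (ha : 0 < a) (hy : 0 < y) (h : q = 4 * a + y)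
    (h1 : 2 * a < y) (h2 : 2 * y < 7 * a) (ga : g a = 1) (gy : g y = 1) : False := by
  obtain ⟨u, hu⟩ : ∃ u, 4 * a = y + u := ⟨4 * a - y, by omega⟩
  obtain ⟨v, hv⟩ : ∃ v, y = 2 * a + v := ⟨y - 2 * a, by omega⟩
  obtain ⟨t, ht⟩ : ∃ t, 7 * a = 2 * y + t := ⟨7 * a - 2 * y, by omega⟩
  obtain ⟨s, hs⟩ : ∃ s, y = a + s := ⟨y - a, by omega⟩
  have k1 := W.T (x := 2 * y) (y := u) (by omega) (by omega) (by omega)
  have k2 := W.T (x := 3 * u) (y := 4 * v) (by omega) (by omega) (by omega)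
  have k3 := W.T (x := 5 * v) (y := 2 * t) (by omega) (by omega) (by omega)
  have k4 := W.T (x := 5 * a) (y := s) (by omega) (by omega) (by omega)
  have k5 := W.T (x := 3 * s) (y := t) (by omega) (by omega) (by omega)
  rw [W.m2 hy] at k1
  rw [W.m3 (by omega), W.m4 (by omega)] at k2
  rw [W.m5 (by omega), W.m2 (by omega)] at k3
  rw [W.m5 (by omega)] at k4
  rw [W.m3 (by omega)] at k5
  omega

/-- `a` even, `3a/2 < y < 2a` (in terms of `a/2`). -/
theorem certE3 (W : World q g) {a y : ℕ} (ha : 0 < a) (hy : 0 < y) (h : q = 4 * a + y)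
    (h1 : 3 * a < y) (h2 : y < 4 * a) (ga : g a = 1) (gy : g y = 1) : False := by
  obtain ⟨u, hu⟩ : ∃ u, 4 * a = y + u := ⟨4 * a - y, by omega⟩
  obtain ⟨s, hs⟩ : ∃ s, y = 3 * a + s := ⟨y - 3 * a, by omega⟩
  have k1 := W.T (x := 7 * a) (y := s) (by omega) (by omega) (by omega)
  have k2 := W.T (x := 8 * s) (y := 7 * u) (by omega) (by omega) (by omega)
  have k3 := W.T (x := 2 * y) (y := u) (by omega) (by omega) (by omega)
  rw [W.m7 ha] at k1
  rw [W.m8 (by omega), W.m7 (by omega)] at k2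
  rw [W.m2 hy] at k3
  omega

/-- `3 ∣ a + y`, `a + y = 3 z`. -/
theorem certC (W : World q g) {a y z : ℕ} (ha : 0 < a) (hy : 0 < y) (h : q = 2 * a + y)
    (hz : a + y = 3 * z) (h2 : y < 2 * a) (ga : g a = -1) (gy : g y = 1) : False := by
  obtain ⟨w, hw⟩ : ∃ w, a = z + w := ⟨a - z, by omega⟩
  have k1 := W.T (x := a) (y := 3 * z) (by omega) (by omega) (by omega)
  have k2 := W.T (x := 4 * z) (y := w) (by omega) (by omega) (by omega)
  have k3 := W.T (x := 2 * y) (y := 3 * w) (by omega) (by omega) (by omega)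
  rw [W.m3 (by omega)] at k1
  rw [W.m4 (by omega)] at k2
  rw [W.m2 hy, W.m3 (by omega)] at k3
  omega

/-- `3 ∣ a`, `2a/3 < y < 2a`. -/
theorem certA1 (W : World q g) {a y : ℕ} (ha : 0 < a) (hy : 0 < y) (h : q = 6 * a + y)
    (h1 : 2 * a < y) (h2 : y < 6 * a) (ga : g a = 1) (gy : g y = 1) : False := by
  obtain ⟨w, hw⟩ : ∃ w, y = 2 * a + w := ⟨y - 2 * a, by omega⟩
  obtain ⟨u, hu⟩ : ∃ u, 6 * a = y + u := ⟨6 * a - y, by omega⟩
  have k1 := W.T (x := 8 * a) (y := w) (by omega) (by omega) (by omega)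
  have k2 := W.T (x := 2 * y) (y := u) (by omega) (by omega) (by omega)
  have k3 := W.T (x := 2 * u) (y := 3 * w) (by omega) (by omega) (by omega)
  rw [W.m8 ha] at k1
  rw [W.m2 hy] at k2
  rw [W.m2 (by omega), W.m3 (by omega)] at k3
  omega

/-- `3 ∣ a`, `y < a/2`. -/
theorem certA2 (W : World q g) {a y : ℕ} (ha : 0 < a) (hy : 0 < y) (h : q = 6 * a + y)
    (h1 : 2 * y < 3 * a) (ga : g a = 1) (gy : g y = 1) : False := by
  obtain ⟨v, hv⟩ : ∃ v, 3 * a = 2 * y + v := ⟨3 * a - 2 * y, by omega⟩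
  have k1 := W.T (x := 5 * a) (y := a + y) (by omega) (by omega) (by omega)
  have k2 := W.T (x := 5 * y) (y := 2 * v) (by omega) (by omega) (by omega)
  have k3 := W.T (x := v) (y := 3 * (a + y)) (by omega) (by omega) (by omega)
  rw [W.m5 ha] at k1
  rw [W.m5 hy, W.m2 (by omega)] at k2
  rw [W.m3 (by omega)] at k3
  omega

/-- `3 ∣ a`, `a` odd, `a/3 < y < a`. -/
theorem certA3 (W : World q g) {a y w v : ℕ} (ha : 0 < a) (hy : 0 < y) (h : q = 6 * a + y)
    (hw : y = a + 2 * w) (hv : 3 * a = y + 2 * v) (hw0 : 0 < w) (hv0 : 0 < v)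
    (ga : g a = 1) (gy : g y = 1) : False := by
  have k1 := W.T (x := 7 * a) (y := 2 * w) (by omega) (by omega) (by omega)
  have k2 := W.T (x := 9 * w) (y := 7 * v) (by omega) (by omega) (by omega)
  have k3 := W.T (x := 3 * y) (y := 4 * v) (by omega) (by omega) (by omega)
  rw [W.m7 ha, W.m2 hw0] at k1
  rw [W.m9 hw0, W.m7 hv0] at k2
  rw [W.m3 hy, W.m4 hv0] at k3
  omega

/-- `3 ∣ y`, `a` and `y` odd. -/
theorem certB (W : World q g) {a y m : ℕ} (ha : 0 < a) (hy : 0 < y) (h : q = 2 * a + 3 * y)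
    (hm : a + y = 2 * m) (ga : g a = -1) (gy : g y = -1) : False := by
  have k1 := W.T (x := a) (y := 2 * (m + y)) (by omega) (by omega) (by omega)
  have k2 := W.T (x := m + y) (y := 3 * m) (by omega) (by omega) (by omega)
  have k3 := W.T (x := y) (y := 4 * m) (by omega) (by omega) (by omega)
  rw [W.m2 (by omega)] at k1
  rw [W.m3 (by omega)] at k2
  rw [W.m4 (by omega)] at k3
  omega

/-- The key one-sided statement. -/
theorem no_bad (W : World q g) (hq2 : q % 2 = 1) (hq3 : q % 3 ≠ 0) {a y : ℕ} (ha : 0 < a)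
    (hy : 0 < y) (h : q = 2 * a + y) (hlt : y < 2 * a) (ga : g a = -1) (gy : g y = 1) :
    False := by
  rcases Nat.even_or_odd' a with ⟨b, hb | hb⟩
  · have hb0 : 0 < b := by omega
    have gb : g b = 1 := by
      have := W.m2 hb0
      rw [← hb, ga] at this
      omega
    rcases lt_trichotomy y (2 * b) with h1 | h1 | h1
    · exact certE1 W hb0 hy (by omega) h1 gb gy
    · omega
    · by_cases h2 : 2 * y < 7 * b
      · exact certE2 W hb0 hy (by omega) h1 h2 gb gy
      · exact certE3 W hb0 hy (by omega) (by omega) (by omega) gb gy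
  · have h3 : a % 3 = 0 ∨ y % 3 = 0 ∨ (a + y) % 3 = 0 := by
      have e1 : a % 3 = 0 ∨ a % 3 = 1 ∨ a % 3 = 2 := by omega
      have e2 : y % 3 = 0 ∨ y % 3 = 1 ∨ y % 3 = 2 := by omega
      rcases e1 with e1 | e1 | e1 <;> rcases e2 with e2 | e2 | e2 <;> omega
    rcases h3 with h3 | h3 | h3
    · obtain ⟨c, hc⟩ : ∃ c, a = 3 * c := ⟨a / 3, by omega⟩
      have hc0 : 0 < c := by omega
      have gc : g c = 1 := by
        have := W.m3 hc0
        rw [← hc, ga] at this
        omega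
      by_cases h4 : 2 * c < y
      · exact certA1 W hc0 hy (by omega) h4 (by omega) gc gy
      · by_cases h5 : 2 * y < 3 * c
        · exact certA2 W hc0 hy (by omega) h5 gc gy
        · obtain ⟨w, hw⟩ : ∃ w, y = c + 2 * w := ⟨(y - c) / 2, by omega⟩
          obtain ⟨v, hv⟩ : ∃ v, 3 * c = y + 2 * v := ⟨(3 * c - y) / 2, by omega⟩
          exact certA3 W hc0 hy (by omega) hw hv (by omega) (by omega) gc gy
    · obtain ⟨c, hc⟩ : ∃ c, y = 3 * c := ⟨y / 3, by omega⟩
      have hc0 : 0 < c := by omega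
      have gc : g c = -1 := by
        have := W.m3 hc0
        rw [← hc, gy] at this
        omega
      obtain ⟨m, hm⟩ : ∃ m, a + c = 2 * m := ⟨(a + c) / 2, by omega⟩
      exact certB W ha hc0 (by omega) hm ga gc
    · obtain ⟨c, hc⟩ : ∃ c, a + y = 3 * c := ⟨(a + y) / 3, by omega⟩
      exact certC W ha hy h hc hlt ga gy

/-- The two-sided statement. -/
theorem two_key (W : World q g) (hq2 : q % 2 = 1) (hq3 : q % 3 ≠ 0) {a y : ℕ} (ha : 0 < a)
    (hy : 0 < y) (h : q = 2 * a + y) (hlt : y < 2 * a) : g a = g y := by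
  have h1 := W.T (x := 2 * a) (y := y) (by omega) hy (by omega)
  rw [W.m2 ha] at h1
  have h2 := W.val a ha
  have h3 := W.val y hy
  have h4 := no_bad W hq2 hq3 ha hy h hlt
  by_cases e : g a = g y
  · exact e
  · exfalso
    exact h4 (by omega) (by omega)

end Pool.Agent.LamGold
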