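import Pool.Agent.LamGold.Zm

set_option autoImplicit false

/-!
# Descent: every `m < q/2` acts by its sign
-/

namespace Pool.Agent.LamGold

variable {q : ℕ} {g : ℕ → ℤ}

theorem Bad.nat_sub {p k b i r : ℕ} (hq : q % 2 = 1) (hk : TT q g k) (hb : Bad q g p (b : ZMod q))
    (h : k * b = i * q + r) : Bad q g p (r : ZMod q) := by
  apply hb.mul hq hk
  left
  have := congrArg (Nat.cast : ℕ → ZMod q) h
  push_cast at this
  rw [this]; simp

theorem Bad.nat_add {p k b i r : ℕ} (hq : q % 2 = 1) (hk : TT q g k) (hb : Bad q g p (b : ZMod q))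
    (h : k * b + r = i * q) : Bad q g p (r : ZMod q) := by
  apply hb.mul hq hk
  right
  have := congrArg (Nat.cast : ℕ → ZMod q) h
  push_cast at this
  rw [ZMod.natCast_self, mul_zero] at this
  linear_combination this

theorem not_bad_zero {p : ℕ} : ¬ Bad q g p 0 := by
  unfold Bad
  simp [FF_zero]

/-- To prove `TT q g p`, it is enough to descend from a bad `b` with `2b < q`. -/
theorem TT_of_descent {p : ℕ} (hq : q % 2 = 1)
    (h : ∀ b : ℕ, 0 < b → 2 * b < q → Bad q g p (b : ZMod q) →
      ∃ r : ℕ, 0 < r ∧ r < b ∧ Bad q g p (r : ZMod q)) : TT q g p := by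
  have key : ∀ b : ℕ, 0 < b → ¬ Bad q g p (b : ZMod q) := by
    intro b
    induction b using Nat.strong_induction_on with
    | _ b ih =>
      intro hb hbad
      rcases Nat.lt_or_ge b q with h1 | h1
      · rcases Nat.lt_or_ge (2 * b) q with h2 | h2
        · obtain ⟨r, hr0, hr, hrb⟩ := h b hb h2 hbad
          exact ih r hr hr0 hrb
        · refine ih (q - b) (by omega) (by omega) ?_
          exact hbad.nat_add (i := 1) hq TT_one (by omega)
      · by_cases h3 : b = q
        · subst h3
          rw [ZMod.natCast_self] at hbad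
          exact not_bad_zero hbad
        · refine ih (b - q) (by omega) (by omega) ?_
          exact hbad.nat_sub (i := 1) hq TT_one (by omega)
  intro a
  by_contra hcon
  by_cases ha : a = 0
  · subst ha; exact hcon (by simp [FF_zero])
  · obtain ⟨x, hx, hxq, rfl | rfl⟩ := exists_nat_rep hq ha
    · exact key x hx hcon
    · apply key x hx
      intro h1
      apply hcon
      rw [mul_neg, FF_neg hq, FF_neg hq, h1]; ring

/-- Sign of a bad element for `3` in `(q/6, q/3)`. -/
theorem bad_three_sign (W : World q g) {b : ℕ} (h1 : q < 6 * b) (h2 : 3 * b < q)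
    (hb : Bad q g 3 (b : ZMod q)) : g b = -1 := by
  have hb0 : 0 < b := by omega
  have hq0 : 0 < q := by omega
  have h3 := W.T (x := 3 * b) (y := q - 3 * b) (by omega) (by omega) (by omega)
  rw [W.m3 hb0] at h3
  have h4 := W.val b hb0
  have h5 := W.val (q - 3 * b) (by omega)
  unfold Bad at hb
  have e : ((3 : ℕ) : ZMod q) * (b : ZMod q) = ((3 * b : ℕ) : ZMod q) := by push_cast; ring
  rw [e, fs_three, FF_nat_gt hq0 (by omega) h2, FF_nat_lt hq0 hb0 (by omega)] at hb
  omega

theorem TT_three (W : World q g) (hq2 : q % 2 = 1) (hq3 : q % 3 ≠ 0) (hq5 : q % 5 ≠ 0) :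
    TT q g 3 := by
  have t2 : TT q g 2 := TT_two W hq2 hq3
  have t4 : TT q g 4 := TT_mul (k := 2) (l := 2) (by norm_num) (by norm_num) t2 t2
  have t16 : TT q g 16 := TT_mul (k := 4) (l := 4) (by norm_num) (by norm_num) t4 t4
  have hq0 : 0 < q := by omega
  apply TT_of_descent hq2
  intro b hb hbq hbad
  have n3 : q ≠ 3 * b := fun h => hq3 (by rw [h]; simp)
  have n5 : q ≠ 5 * b := fun h => hq5 (by rw [h]; simp)
  rcases Nat.lt_or_ge (6 * b) q with h6 | h6
  · exfalso
    apply hbad
    have e : ((3 : ℕ) : ZMod q) * (b : ZMod q) = ((3 * b : ℕ) : ZMod q) := by push_cast; ring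
    rw [e, FF_nat_lt hq0 (by omega) (by omega), FF_nat_lt hq0 hb (by omega), W.m3 hb, fs_three]
    ring
  rcases Nat.lt_or_ge q (3 * b) with h3 | h3
  · exact ⟨q - 2 * b, by omega, by omega, hbad.nat_add (i := 1) hq2 t2 (by omega)⟩
  rcases Nat.lt_or_ge q (4 * b) with h4 | h4
  · exact ⟨4 * b - q, by omega, by omega, hbad.nat_sub (i := 1) hq2 t4 (by omega)⟩
  rcases Nat.lt_or_ge q (5 * b) with h5 | h5
  · exact ⟨q - 4 * b, by omega, by omega, hbad.nat_add (i := 1) hq2 t4 (by omega)⟩
  rcases Nat.lt_or_ge (3 * q) (16 * b) with h16 | h16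
  · exact ⟨16 * b - 3 * q, by omega, by omega, hbad.nat_sub (i := 3) hq2 t16 (by omega)⟩
  rcases Nat.lt_or_ge (3 * q) (17 * b) with h17 | h17
  · exact ⟨3 * q - 16 * b, by omega, by omega, hbad.nat_add (i := 3) hq2 t16 (by omega)⟩
  exfalso
  have hr : Bad q g 3 ((3 * q - 16 * b : ℕ) : ZMod q) :=
    hbad.nat_add (i := 3) hq2 t16 (by omega)
  have s1 := bad_three_sign W (by omega) (by omega) hbad
  have s2 := bad_three_sign W (by omega) (by omega) hr
  have e1 : FF q g ((3 * q - 16 * b : ℕ) : ZMod q) = - FF q g (b : ZMod q) := by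
    have e2 : ((3 * q - 16 * b : ℕ) : ZMod q) = -(((16 : ℕ) : ZMod q) * (b : ZMod q)) := by
      rw [Nat.cast_sub (by omega)]; push_cast; rw [ZMod.natCast_self]; ring
    rw [e2, FF_neg hq2, t16, fs_sixteen]; ring
  rw [FF_nat_lt hq0 (by omega) (by omega), FF_nat_lt hq0 hb hbq] at e1
  omega

/-- Dirichlet's theorem in the form used below. -/
theorem dirichlet {p b : ℕ} (hp : 2 ≤ p) (hq : 0 < q) :
    ∃ k i : ℕ, 0 < k ∧ k < p ∧ p * Int.natAbs ((k : ℤ) * b - i * q) ≤ q := by
  obtain ⟨j, k, hk0, hk1, h⟩ := Real.exists_int_int_abs_mul_sub_le ((b : ℝ) / q)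
    (n := p - 1) (by omega)
  have hq' : (0 : ℝ) < q := by exact_mod_cast hq
  have hp' : ((p - 1 : ℕ) : ℝ) + 1 = p := by
    rw [Nat.cast_sub (by omega)]; push_cast; ring
  rw [hp'] at h
  have hp0 : (0 : ℝ) < p := by
    have : 0 < p := by omega
    exact_mod_cast this
  have h1 : |(k : ℝ) * b - j * q| * p ≤ q := by
    have h2 : (k : ℝ) * b - j * q = ((k : ℝ) * ((b : ℝ) / q) - j) * q := by
      field_simp
    rw [h2, abs_mul, abs_of_pos hq']
    calc |(k : ℝ) * ((b : ℝ) / q) - j| * q * p ≤ (1 / p) * q * p := by gcongr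
      _ = q := by field_simp
  have hj : 0 ≤ j := by
    by_contra hneg
    push Not at hneg
    have h3 : (k : ℝ) * ((b : ℝ) / q) - j ≥ 1 := by
      have : (j : ℝ) ≤ -1 := by exact_mod_cast (show j ≤ -1 by omega)
      have h4 : (0 : ℝ) ≤ (k : ℝ) * ((b : ℝ) / q) := by
        have : (0 : ℝ) ≤ k := by exact_mod_cast hk0.le
        positivity
      linarith
    have h5 : (1 : ℝ) / p < 1 := by
      rw [div_lt_one hp0]
      exact_mod_cast (show 1 < p by omega)
    have h6 := le_abs_self ((k : ℝ) * ((b : ℝ) / q) - j)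
    linarith
  refine ⟨k.toNat, j.toNat, by omega, by omega, ?_⟩
  have e1 : ((k.toNat : ℕ) : ℤ) = k := Int.toNat_of_nonneg hk0.le
  have e2 : ((j.toNat : ℕ) : ℤ) = j := Int.toNat_of_nonneg hj
  rw [e1, e2]
  have h7 : ((|k * b - j * q| * p : ℤ) : ℝ) ≤ ((q : ℤ) : ℝ) := by
    push_cast
    exact h1
  have h8 : |k * b - j * q| * p ≤ q := by exact_mod_cast h7
  have h9 : (Int.natAbs (k * b - j * q) : ℤ) = |k * b - j * q| := Int.natCast_natAbs _
  have h10 : ((p * Int.natAbs (k * b - j * q) : ℕ) : ℤ) ≤ q := by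
    push_cast
    linarith
  exact_mod_cast h10

theorem TT_prime (W : World q g) (hqp : q.Prime) (hq5 : 5 < q) {p : ℕ} (hp : p.Prime)
    (hp5 : 5 ≤ p) (hpq : 2 * p < q) (ih : ∀ m, 0 < m → m < p → TT q g m) : TT q g p := by
  have hq2 : q % 2 = 1 := by
    rcases hqp.eq_two_or_odd with h | h
    · omega
    · exact h
  have hq0 : 0 < q := by omega
  have t2 : TT q g 2 := ih 2 (by norm_num) (by omega)
  apply TT_of_descent hq2
  intro b hb hbq hbad
  have hqb : ¬ q ∣ b := fun h => by have := Nat.le_of_dvd hb h; omega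
  -- reduce to `p b < q`
  rcases Nat.lt_or_ge q (p * b) with hpb | hpb
  · obtain ⟨k, i, hk0, hkp, hki⟩ := dirichlet (q := q) (b := b) (p := p) (by omega) hq0
    have hqk : ¬ q ∣ k := fun h => by have := Nat.le_of_dvd hk0 h; omega
    have hne : (k : ℤ) * b - i * q ≠ 0 := by
      intro h
      have h1 : k * b = i * q := by
        have : ((k * b : ℕ) : ℤ) = ((i * q : ℕ) : ℤ) := by push_cast; linarith
        exact_mod_cast this
      have h2 : q ∣ k * b := ⟨i, by rw [h1]; ring⟩
      rcases (Nat.Prime.dvd_mul hqp).1 h2 with h | h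
      · exact hqk h
      · exact hqb h
    refine ⟨Int.natAbs ((k : ℤ) * b - i * q), Int.natAbs_pos.2 hne, ?_, ?_⟩
    · have : p * Int.natAbs ((k : ℤ) * b - i * q) < p * b := lt_of_le_of_lt hki hpb
      exact lt_of_mul_lt_mul_left this (Nat.zero_le _)
    · rcases Int.natAbs_eq ((k : ℤ) * b - i * q) with h | h
      · apply hbad.nat_sub (i := i) (k := k) hq2 (ih k hk0 hkp)
        have : ((k * b : ℕ) : ℤ) = ((i * q + Int.natAbs ((k : ℤ) * b - i * q) : ℕ) : ℤ) := by
          push_cast
          rw [← Int.natCast_natAbs]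
          linarith
        exact_mod_cast this
      · apply hbad.nat_add (i := i) (k := k) hq2 (ih k hk0 hkp)
        have : ((k * b + Int.natAbs ((k : ℤ) * b - i * q) : ℕ) : ℤ) = ((i * q : ℕ) : ℤ) := by
          push_cast
          rw [← Int.natCast_natAbs]
          linarith
        exact_mod_cast this
  have hpb' : p * b < q := by
    rcases hpb.lt_or_eq with h | h
    · exact h
    · exfalso
      rcases (Nat.dvd_prime hqp).1 ⟨b, h.symm⟩ with h1 | h1
      · omega
      · omega
  rcases Nat.lt_or_ge (2 * (p * b)) q with hg | hg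
  · exfalso
    apply hbad
    have e : ((p : ℕ) : ZMod q) * (b : ZMod q) = ((p * b : ℕ) : ZMod q) := by push_cast; ring
    have : 0 < p * b := Nat.mul_pos (by omega) hb
    rw [e, FF_nat_lt hq0 this hg, FF_nat_lt hq0 hb hbq, W.mul p b (by omega) hb]
  have hg' : q < 2 * (p * b) := by omega
  rcases Nat.even_or_odd' b with ⟨b', hb' | hb'⟩
  · exfalso
    apply hbad
    have hb0' : 0 < b' := by omega
    have e : ((p : ℕ) : ZMod q) * (b : ZMod q) = ((2 : ℕ) : ZMod q) * ((p * b' : ℕ) : ZMod q) := by
      rw [hb']; push_cast; ring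
    have e2 : p * b = 2 * (p * b') := by rw [hb']; ring
    have : 0 < p * b' := Nat.mul_pos (by omega) hb0'
    rw [e, t2, FF_nat_lt hq0 this (by omega), FF_nat_lt hq0 hb hbq, hb', W.m2 hb0',
      W.mul p b' (by omega) hb0', fs_two]
    ring
  -- `b` odd
  obtain ⟨c, hc⟩ : ∃ c, c = q / b := ⟨_, rfl⟩
  have hc1 : c * b ≤ q := by rw [hc]; exact Nat.div_mul_le_self q b
  have hc2 : q < (c + 1) * b := by
    rw [hc]; exact Nat.lt_mul_of_div_lt (Nat.lt_succ_self _) hb
  have hpc : p ≤ c := by
    have : p * b < (c + 1) * b := lt_trans hpb' hc2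
    have := lt_of_mul_lt_mul_right this (Nat.zero_le _)
    omega
  have hcp : c < 2 * p := by
    have : c * b < (2 * p) * b := by
      calc c * b ≤ q := hc1
        _ < 2 * (p * b) := hg'
        _ = (2 * p) * b := by ring
    exact lt_of_mul_lt_mul_right this (Nat.zero_le _)
  have hcb : c * b < q := by
    rcases hc1.lt_or_eq with h | h
    · exact h
    · exfalso
      rcases (Nat.dvd_prime hqp).1 ⟨c, by rw [mul_comm]; exact h.symm⟩ with h1 | h1
      · subst h1; omega
      · omega
  have hc2' : (c + 1) * b = c * b + b := by ring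
  rcases Nat.even_or_odd' c with ⟨c', hc' | hc'⟩
  · -- `c` even
    have tc : TT q g c := by
      rw [hc']
      exact TT_mul (by norm_num) (by omega) t2 (ih c' (by omega) (by omega))
    exact ⟨q - c * b, by omega, by omega, hbad.nat_add (i := 1) hq2 tc (by omega)⟩
  · rcases Nat.lt_or_ge (c + 1) (2 * p) with h1 | h1
    · have tc : TT q g (c + 1) := by
        rw [show c + 1 = 2 * (c' + 1) by omega]
        exact TT_mul (by norm_num) (by omega) t2 (ih (c' + 1) (by omega) (by omega))
      exact ⟨(c + 1) * b - q, by omega, by omega, hbad.nat_sub (i := 1) hq2 tc (by omega)⟩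
    · have hc3 : c = 2 * p - 1 := by omega
      by_cases hcprime : c.Prime
      · -- `2p - 1` prime, so `3 ∣ 2p + 1`
        have hp3 : p % 3 ≠ 0 := by
          intro h
          have := (Nat.prime_dvd_prime_iff_eq Nat.prime_three hp).1 (Nat.dvd_of_mod_eq_zero h)
          omega
        have hc3' : c % 3 ≠ 0 := by
          intro h
          have := (Nat.prime_dvd_prime_iff_eq Nat.prime_three hcprime).1
            (Nat.dvd_of_mod_eq_zero h)
          omega
        obtain ⟨m, hm⟩ : ∃ m, 2 * p + 1 = 3 * m := by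
          refine ⟨(2 * p + 1) / 3, ?_⟩
          have e1 : p % 3 = 1 ∨ p % 3 = 2 := by omega
          rcases e1 with e1 | e1
          · omega
          · exfalso
            have : c % 3 = 0 := by omega
            exact hc3' this
        have tm : TT q g (2 * p + 1) := by
          rw [hm]
          exact TT_mul (by norm_num) (by omega) (ih 3 (by norm_num) (by omega))
            (ih m (by omega) (by omega))
        have e1 : (2 * p + 1) * b = 2 * (p * b) + b := by ring
        have e2 : c * b = 2 * (p * b) - b := by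
          rw [hc3, Nat.sub_mul]
          ring_nf
        obtain ⟨r, hr⟩ : ∃ r, (2 * p + 1) * b = 1 * q + 2 * r :=
          ⟨((2 * p + 1) * b - q) / 2, by omega⟩
        refine ⟨r, by omega, by omega, ?_⟩
        have h2 : Bad q g p ((2 * r : ℕ) : ZMod q) := hbad.nat_sub hq2 tm hr
        have h3 : Bad q g p (((2 : ℕ) : ZMod q) * (r : ZMod q)) := by
          have : ((2 * r : ℕ) : ZMod q) = ((2 : ℕ) : ZMod q) * (r : ZMod q) := by push_cast; ring
          rwa [this] at h2
        exact h3.div t2
      · have tc : TT q g c := by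
          obtain ⟨u, v, hu, hv, huv⟩ := Nat.not_prime_iff_exists_mul_eq (by omega) |>.1 hcprime
          have hu0 : 0 < u := Nat.pos_of_ne_zero (by rintro rfl; omega)
          have hv0 : 0 < v := Nat.pos_of_ne_zero (by rintro rfl; omega)
          have hu2 : u ≠ 2 := by rintro rfl; omega
          have hv2 : v ≠ 2 := by rintro rfl; omega
          have hu1 : u ≠ 1 := by rintro rfl; omega
          have hv1 : v ≠ 1 := by rintro rfl; omega
          have h3u : 3 ≤ u := by omega
          have h3v : 3 ≤ v := by omega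
          have hup : u < p := by nlinarith
          have hvp : v < p := by nlinarith
          rw [← huv]
          exact TT_mul hu0 hv0 (ih u hu0 hup) (ih v hv0 hvp)
        exact ⟨q - c * b, by omega, by omega, hbad.nat_add (i := 1) hq2 tc (by omega)⟩

theorem TT_all (W : World q g) (hqp : q.Prime) (hq5 : 5 < q) :
    ∀ m, 0 < m → 2 * m < q → TT q g m := by
  have hq2 : q % 2 = 1 := by
    rcases hqp.eq_two_or_odd with h | h
    · omega
    · exact h
  have hq3 : q % 3 ≠ 0 := by
    intro h
    have := (Nat.prime_dvd_prime_iff_eq Nat.prime_three hqp).1 (Nat.dvd_of_mod_eq_zero h)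
    omega
  have hq5' : q % 5 ≠ 0 := by
    intro h
    have := (Nat.prime_dvd_prime_iff_eq Nat.prime_five hqp).1 (Nat.dvd_of_mod_eq_zero h)
    omega
  intro m
  induction m using Nat.strong_induction_on with
  | _ m ih =>
    intro hm hmq
    rcases Nat.lt_or_ge m 2 with h1 | h1
    · have : m = 1 := by omega
      subst this
      exact TT_one
    by_cases hp : m.Prime
    · rcases Nat.lt_or_ge m 5 with h5 | h5
      · have : m = 2 ∨ m = 3 := by
          have : m ≠ 4 := by rintro rfl; revert hp; decide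
          omega
        rcases this with rfl | rfl
        · exact TT_two W hq2 hq3
        · exact TT_three W hq2 hq3 hq5'
      · exact TT_prime W hqp hq5 hp h5 hmq (fun k hk hkm => ih k hkm hk (by omega))
    · obtain ⟨u, v, hu, hv, huv⟩ := Nat.not_prime_iff_exists_mul_eq h1 |>.1 hp
      have hu0 : 0 < u := Nat.pos_of_ne_zero (by rintro rfl; omega)
      have hv0 : 0 < v := Nat.pos_of_ne_zero (by rintro rfl; omega)
      rw [← huv]
      exact TT_mul hu0 hv0 (ih u hu hu0 (by omega)) (ih v hv hv0 (by omega))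

end Pool.Agent.LamGold
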