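import Pool.Agent.LamGold.Odd

set_option autoImplicit false

/-!
# Symmetric sign functions: `g x = g (q - x)`
-/

namespace Pool.Agent.LamGold

/-- A sign function with `g(kn) = (-1)^Ω(k) g(n)` and `g(x) = g(y)` whenever `x + y = q`. -/
structure EWorld (q : ℕ) (g : ℕ → ℤ) : Prop where
  val : ∀ n, 0 < n → g n = 1 ∨ g n = -1
  mul : ∀ k n, 0 < k → 0 < n → g (k * n) = fs k * g n
  sym : ∀ x y, 0 < x → 0 < y → x + y = q → g x = g y

/-- The extension of `g` from `(0, q)` to the integers mod `q`. -/
def GE (q : ℕ) (g : ℕ → ℤ) (a : ZMod q) : ℤ := if a.val = 0 then 0 else g a.val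

variable {q : ℕ} {g : ℕ → ℤ}

theorem EWorld.eq_fs_mul (W : EWorld q g) {n : ℕ} (hn : 0 < n) : g n = fs n * g 1 := by
  have := W.mul n 1 hn one_pos
  rwa [mul_one] at this

theorem GE_nat {x : ℕ} (h0 : 0 < x) (h : x < q) : GE q g (x : ZMod q) = g x := by
  unfold GE
  rw [ZMod.val_natCast_of_lt h, if_neg (by omega)]

theorem GE_neg (W : EWorld q g) (hq : 0 < q) (a : ZMod q) : GE q g (-a) = GE q g a := by
  haveI : NeZero q := ⟨hq.ne'⟩
  by_cases ha : a = 0
  · subst ha; simp
  · haveI : NeZero a := ⟨ha⟩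
    have h1 : (-a).val = q - a.val := ZMod.val_neg_of_ne_zero a
    have h2 : a.val < q := ZMod.val_lt a
    have h3 : a.val ≠ 0 := by
      intro h; exact ha ((ZMod.val_eq_zero a).1 h)
    unfold GE
    rw [h1, if_neg (by omega), if_neg h3]
    exact W.sym _ _ (by omega) (by omega) (by omega)

theorem exists_val (hq : 0 < q) {a : ZMod q} (ha : a ≠ 0) :
    ∃ x : ℕ, 0 < x ∧ x < q ∧ a = (x : ZMod q) := by
  haveI : NeZero q := ⟨hq.ne'⟩
  refine ⟨a.val, ?_, ZMod.val_lt a, by simp⟩
  rcases Nat.eq_zero_or_pos a.val with h | h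
  · exact (ha ((ZMod.val_eq_zero a).1 h)).elim
  · exact h

theorem E_all (W : EWorld q g) (hqp : q.Prime) (k : ℕ) :
    0 < k → k < q → ∀ a : ZMod q, GE q g (k * a) = fs k * GE q g a := by
  have hq0 := hqp.pos
  induction k using Nat.strong_induction_on with
  | _ k ih =>
    intro hk0 hkq a
    by_cases hk1 : k = 1
    · subst hk1; simp [fs_one]
    by_cases hkp : k.Prime
    · by_cases ha : a = 0
      · subst ha; simp [GE]
      obtain ⟨b, hb0, hbq, rfl⟩ := exists_val hq0 ha
      obtain ⟨l, i, hl0, hlk, hli⟩ := dirichlet (q := q) (b := b) (p := k) hkp.two_le hq0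
      have hql : ¬ q ∣ l := fun h => by have := Nat.le_of_dvd hl0 h; omega
      have hqb : ¬ q ∣ b := fun h => by have := Nat.le_of_dvd hb0 h; omega
      have hne : (l : ℤ) * b - i * q ≠ 0 := by
        intro h
        have h1 : l * b = i * q := by
          have : ((l * b : ℕ) : ℤ) = ((i * q : ℕ) : ℤ) := by push_cast; linarith
          exact_mod_cast this
        have h2 : q ∣ l * b := ⟨i, by rw [h1]; ring⟩
        rcases (Nat.Prime.dvd_mul hqp).1 h2 with h | h
        · exact hql h
        · exact hqb h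
      obtain ⟨r, hr⟩ : ∃ r, r = Int.natAbs ((l : ℤ) * b - i * q) := ⟨_, rfl⟩
      rw [← hr] at hli
      have hr0 : 0 < r := by rw [hr]; exact Int.natAbs_pos.2 hne
      have hkr : k * r < q := by
        rcases hli.lt_or_eq with h | h
        · exact h
        · exfalso
          rcases (Nat.dvd_prime hqp).1 (show k ∣ q from ⟨r, h.symm⟩) with h | h
          · exact hk1 h
          · omega
      have hrq : r < q := by
        have : 1 * r ≤ k * r := Nat.mul_le_mul_right r hk0
        omega
      have hlb : (l : ZMod q) * (b : ZMod q) = (r : ZMod q) ∨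
          (l : ZMod q) * (b : ZMod q) = -(r : ZMod q) := by
        rcases Int.natAbs_eq ((l : ℤ) * b - i * q) with h | h
        · left
          rw [← hr] at h
          have : (((l : ℤ) * b : ℤ) : ZMod q) = ((i * q + r : ℤ) : ZMod q) := by
            rw [← h]; congr 1; ring
          push_cast at this
          rw [ZMod.natCast_self] at this
          rw [this]; simp
        · right
          rw [← hr] at h
          have : (((l : ℤ) * b : ℤ) : ZMod q) = ((i * q - r : ℤ) : ZMod q) := by
            have : (l : ℤ) * b = i * q - r := by linarith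
            rw [this]
          push_cast at this
          rw [ZMod.natCast_self] at this
          rw [this]; simp
      have e1 : GE q g ((l : ZMod q) * (b : ZMod q)) = g r := by
        rcases hlb with h | h
        · rw [h, GE_nat hr0 hrq]
        · rw [h, GE_neg W hq0, GE_nat hr0 hrq]
      have e2 : GE q g ((l : ZMod q) * ((k : ZMod q) * (b : ZMod q))) = fs k * g r := by
        have h0 : (l : ZMod q) * ((k : ZMod q) * (b : ZMod q)) =
            (k : ZMod q) * ((l : ZMod q) * (b : ZMod q)) := by ring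
        have h1 : (k : ZMod q) * (r : ZMod q) = ((k * r : ℕ) : ZMod q) := by push_cast; ring
        rw [h0]
        rcases hlb with h | h
        · rw [h, h1, GE_nat (Nat.mul_pos hk0 hr0) hkr, W.mul k r hk0 hr0]
        · rw [h, mul_neg, GE_neg W hq0, h1, GE_nat (Nat.mul_pos hk0 hr0) hkr,
            W.mul k r hk0 hr0]
      rw [ih l hlk hl0 (by omega)] at e1 e2
      apply mul_left_cancel₀ (fs_ne_zero l)
      rw [e2, ← e1]; ring
    · -- composite
      have hk2 : 2 ≤ k := by omega
      obtain ⟨m, n, hm, hn, hmn⟩ : ∃ m n, m < k ∧ n < k ∧ m * n = k := by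
        have h1 := Nat.minFac_dvd k
        have h2 := Nat.minFac_prime hk1
        refine ⟨k.minFac, k / k.minFac, ?_, ?_, Nat.mul_div_cancel' h1⟩
        · exact (Nat.not_prime_iff_minFac_lt hk2).1 hkp
        · exact Nat.div_lt_self hk0 h2.one_lt
      have hm0 : 0 < m := Nat.pos_of_ne_zero (by rintro rfl; omega)
      have hn0 : 0 < n := Nat.pos_of_ne_zero (by rintro rfl; omega)
      have e : (k : ZMod q) * a = (m : ZMod q) * ((n : ZMod q) * a) := by
        rw [← hmn]; push_cast; ring
      rw [e, ih m hm hm0 (by omega), ih n hn hn0 (by omega), ← hmn, fs_mul hm0 hn0]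
      ring

theorem E_sq (W : EWorld q g) (hqp : q.Prime) {a : ZMod q} (ha : a ≠ 0) :
    GE q g (a * a) = g 1 := by
  obtain ⟨x, hx, hxq, rfl⟩ := exists_val hqp.pos ha
  rw [E_all W hqp x hx hxq, GE_nat hx hxq, W.eq_fs_mul hx, ← mul_assoc, fs_sq, one_mul]

theorem E_not_isSquare (W : EWorld q g) (hqp : q.Prime) {p : ℕ} (hp : p.Prime)
    (hpq : p < q) : ¬ IsSquare ((p : ℕ) : ZMod q) := by
  rintro ⟨a, ha⟩
  have h1 : GE q g (p : ZMod q) = - g 1 := by
    rw [GE_nat hp.pos hpq, W.eq_fs_mul hp.pos, fs_prime hp]; ring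
  have ha0 : a ≠ 0 := by
    rintro rfl
    rw [ha, mul_zero] at h1
    simp only [GE, ZMod.val_zero, if_true] at h1
    rcases W.val 1 one_pos with h | h <;> omega
  rw [ha, E_sq W hqp ha0] at h1
  rcases W.val 1 one_pos with h | h <;> omega

theorem no_eworld_prime (hqp : q.Prime) (hq : 5 < q) (W : EWorld q g) : False := by
  have : Fact q.Prime := ⟨hqp⟩
  have h2 : ¬ IsSquare (2 : ZMod q) := by
    have := E_not_isSquare W hqp Nat.prime_two (by omega)
    simpa using this
  have hqodd : q % 2 = 1 := by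
    rcases hqp.eq_two_or_odd with h | h
    · omega
    · exact h
  have h1 : q % 4 = 1 := by
    by_contra h
    have h3 : ¬ IsSquare (-1 : ZMod q) := by
      rw [ZMod.exists_sq_eq_neg_one_iff]; omega
    have hm : IsSquare ((-1 : ZMod q) * 2) := by
      have e0 : (2 : ZMod q) ≠ 0 := by
        intro h0; rw [h0] at h2; exact h2 ⟨0, by ring⟩
      have hc1 := (quadraticChar_neg_one_iff_not_isSquare (F := ZMod q)).2 h3
      have hc2 := (quadraticChar_neg_one_iff_not_isSquare (F := ZMod q)).2 h2
      have hne : (-1 : ZMod q) * 2 ≠ 0 := by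
        intro h0
        apply e0
        have : (2 : ZMod q) = -((-1 : ZMod q) * 2) := by ring
        rw [this, h0, neg_zero]
      rw [← quadraticChar_one_iff_isSquare hne, map_mul, hc1, hc2]; norm_num
    obtain ⟨a, ha⟩ := hm
    have e1 : GE q g ((-1 : ZMod q) * 2) = - g 1 := by
      have : (-1 : ZMod q) * 2 = -((2 : ℕ) : ZMod q) := by push_cast; ring
      rw [this, GE_neg W hqp.pos, GE_nat (by norm_num) (by omega),
        W.eq_fs_mul (by norm_num), fs_two]; ring
    have ha0 : a ≠ 0 := by
      rintro rfl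
      rw [ha, mul_zero] at e1
      simp only [GE, ZMod.val_zero, if_true] at e1
      rcases W.val 1 one_pos with h | h <;> omega
    rw [ha, E_sq W hqp ha0] at e1
    rcases W.val 1 one_pos with h | h <;> omega
  have h3 : q % 8 = 5 := by
    rw [ZMod.exists_sq_eq_two_iff (by omega)] at h2
    omega
  obtain ⟨m, hm⟩ : ∃ m, q = 4 * m + 1 := ⟨(q - 1) / 4, by omega⟩
  have hm1 : m ≠ 1 := by omega
  obtain ⟨p, hp, hpm⟩ := Nat.exists_prime_and_dvd hm1
  have : Fact p.Prime := ⟨hp⟩
  have hple : p ≤ m := Nat.le_of_dvd (by omega) hpm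
  apply E_not_isSquare W hqp hp (by omega)
  have hp2 : p ≠ 2 := by
    rintro rfl
    omega
  have hq1 : ((q : ℕ) : ZMod p) = 1 := by
    have h6 : ((4 * m : ℕ) : ZMod p) = 0 :=
      (ZMod.natCast_eq_zero_iff _ _).2 (Dvd.dvd.mul_left hpm 4)
    rw [hm]
    push_cast at h6 ⊢
    linear_combination h6
  rw [ZMod.exists_sq_eq_prime_iff_of_mod_four_eq_one (p := q) (q := p) h1 hp2, hq1]
  exact ⟨1, by ring⟩

end Pool.Agent.LamGold
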