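import Pool.Agent.LamGold.Even

set_option autoImplicit false

/-!
# All four sign patterns
-/

namespace Pool.Agent.LamGold

theorem fs_twentytwo : fs 22 = 1 := by
  rw [show 22 = 2 * 11 from rfl, fs_mul (by norm_num) (by norm_num), fs_two,
    fs_prime (show Nat.Prime 11 by norm_num)]; norm_num

/-- Numbers without prime factors other than `2` and `5`. -/
theorem exists_two_five (N : ℕ) (hN : 0 < N) (h : ∀ p, p.Prime → p ∣ N → p = 2 ∨ p = 5) :
    ∃ i j, N = 2 ^ i * 5 ^ j := by
  induction N using Nat.strong_induction_on with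
  | _ N ih =>
    by_cases h1 : N = 1
    · exact ⟨0, 0, by simp [h1]⟩
    obtain ⟨p, hp, hpN⟩ := Nat.exists_prime_and_dvd h1
    obtain ⟨M, hM⟩ := hpN
    have hM0 : 0 < M := Nat.pos_of_ne_zero (by rintro rfl; omega)
    have hMN : M < N := by
      rw [hM]
      have := hp.two_le
      nlinarith
    obtain ⟨i, j, hij⟩ := ih M hMN hM0
      (fun r hr hrM => h r hr (by rw [hM]; exact Dvd.dvd.mul_left hrM p))
    rcases h p hp ⟨M, hM⟩ with rfl | rfl
    · exact ⟨i + 1, j, by rw [hM, hij]; ring⟩
    · exact ⟨i, j + 1, by rw [hM, hij]; ring⟩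

theorem eworld_of {N d m : ℕ} (hd : 0 < d) (hN : N = d * m)
    (h : ∀ a b : ℕ, 0 < a → 0 < b → a + b = N → fs a = fs b) :
    EWorld m (fun x => fs (d * x)) where
  val := fun n _ => fs_val (d * n)
  mul := by
    intro k n hk hn
    have : d * (k * n) = k * (d * n) := by ring
    simp only [this, fs_mul hk (Nat.mul_pos hd hn)]
  sym := by
    intro x y hx hy hxy
    exact h (d * x) (d * y) (Nat.mul_pos hd hx) (Nat.mul_pos hd hy)
      (by rw [hN, ← hxy]; ring)

theorem two_sided {N : ℕ} (hN : 0 < N)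
    (h : ∀ a b : ℕ, 0 < a → 0 < b → a + b = N → fs a = fs b) :
    N = 1 ∨ N = 2 ∨ N = 5 ∨ N = 10 := by
  have hdiv : ∀ m, m ∣ N → (∀ g : ℕ → ℤ, EWorld m g → False) → False := by
    intro m hm hw
    obtain ⟨d, hd⟩ := hm
    have hd0 : 0 < d := Nat.pos_of_ne_zero (by rintro rfl; omega)
    exact hw _ (eworld_of hd0 (by rw [hd]; ring) h)
  have h3 : ¬ 3 ∣ N := by
    intro h3
    apply hdiv 3 h3
    intro g W
    have h1 := W.sym 1 2 (by norm_num) (by norm_num) (by norm_num)
    rw [W.eq_fs_mul (n := 2) (by norm_num), fs_two] at h1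
    rcases W.val 1 one_pos with h | h <;> omega
  have h4 : ¬ 4 ∣ N := by
    intro h4
    apply hdiv 4 h4
    intro g W
    have h1 := W.sym 1 3 (by norm_num) (by norm_num) (by norm_num)
    rw [W.eq_fs_mul (n := 3) (by norm_num), fs_three] at h1
    rcases W.val 1 one_pos with h | h <;> omega
  have h25 : ¬ 25 ∣ N := by
    intro h25
    apply hdiv 25 h25
    intro g W
    have h1 := W.sym 3 22 (by norm_num) (by norm_num) (by norm_num)
    rw [W.eq_fs_mul (n := 3) (by norm_num), W.eq_fs_mul (n := 22) (by norm_num), fs_three,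
      fs_twentytwo] at h1
    rcases W.val 1 one_pos with h | h <;> omega
  have hp : ∀ p, p.Prime → p ∣ N → p = 2 ∨ p = 5 := by
    intro p hp hpN
    by_contra hcon
    push Not at hcon
    have h5 : ¬ 5 < p := fun h5 => hdiv p hpN (fun g W => no_eworld_prime hp h5 W)
    have h2 := hp.two_le
    have h34 : p = 3 ∨ p = 4 := by omega
    rcases h34 with rfl | rfl
    · exact h3 hpN
    · exact h4 hpN
  obtain ⟨i, j, hij⟩ := exists_two_five N hN hp
  have hi : i < 2 := by
    by_contra hc
    push Not at hc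
    apply h4
    rw [hij]
    exact Dvd.dvd.mul_right (pow_dvd_pow 2 hc) _
  have hj : j < 2 := by
    by_contra hc
    push Not at hc
    apply h25
    rw [hij]
    exact Dvd.dvd.mul_left (pow_dvd_pow 5 hc) _
  interval_cases i <;> interval_cases j
  · left; simpa using hij
  · right; right; left; simpa using hij
  · right; left; simpa using hij
  · right; right; right; simpa using hij

theorem exists_odd_even {N : ℕ} (hN : 11 ≤ N) :
    ∃ a b : ℕ, 0 < a ∧ 0 < b ∧ a + b = N ∧ fs a = -1 ∧ fs b = 1 := by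
  by_contra hcon
  push Not at hcon
  have h := two_sided (N := N) (by omega) (by
    intro a b ha hb hab
    rcases fs_val a with e1 | e1 <;> rcases fs_val b with e2 | e2
    · rw [e1, e2]
    · exact (hcon b a hb ha (by omega) e2 e1).elim
    · exact (hcon a b ha hb hab e1 e2).elim
    · rw [e1, e2])
  omega

end Pool.Agent.LamGold
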