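import Pool.Agent.LamGold.Zm

set_option autoImplicit false

/-!
# One-sided sign worlds with small elements excluded
-/

namespace Pool.Agent.LamGold

/-- As `World`, but the condition is only imposed for `x, y > L`. -/
structure WL (q L : ℕ) (g : ℕ → ℤ) : Prop where
  val : ∀ n, 0 < n → g n = 1 ∨ g n = -1
  mul : ∀ k n, 0 < k → 0 < n → g (k * n) = fs k * g n
  rel : ∀ x y, L < x → L < y → x + y = q → g x = 1 ∨ g y = 1

variable {q L : ℕ} {g : ℕ → ℤ}

theorem WL.T (W : WL q L g) {x y : ℕ} (hx : L < x) (hy : L < y) (h : x + y = q) :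
    g x = 1 ∨ g y = 1 := W.rel x y hx hy h

theorem WL.m2 (W : WL q L g) {n : ℕ} (hn : 0 < n) : g (2 * n) = - g n := by
  rw [W.mul 2 n (by norm_num) hn, fs_two]; ring
theorem WL.m3 (W : WL q L g) {n : ℕ} (hn : 0 < n) : g (3 * n) = - g n := by
  rw [W.mul 3 n (by norm_num) hn, fs_three]; ring
theorem WL.m4 (W : WL q L g) {n : ℕ} (hn : 0 < n) : g (4 * n) = g n := by
  rw [W.mul 4 n (by norm_num) hn, fs_four]; ring
theorem WL.m5 (W : WL q L g) {n : ℕ} (hn : 0 < n) : g (5 * n) = - g n := by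
  rw [W.mul 5 n (by norm_num) hn, fs_five]; ring
theorem WL.m7 (W : WL q L g) {n : ℕ} (hn : 0 < n) : g (7 * n) = - g n := by
  rw [W.mul 7 n (by norm_num) hn, fs_seven]; ring
theorem WL.m8 (W : WL q L g) {n : ℕ} (hn : 0 < n) : g (8 * n) = - g n := by
  rw [W.mul 8 n (by norm_num) hn, fs_eight]; ring
theorem WL.m9 (W : WL q L g) {n : ℕ} (hn : 0 < n) : g (9 * n) = g n := by
  rw [W.mul 9 n (by norm_num) hn, fs_nine]; ring

theorem lcertE1 (W : WL q L g) {a y : ℕ} (h : q = 4 * a + y)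
    (hlt : y + L < 2 * a) (hy : L < 3 * y) (ga : g a = 1) (gy : g y = 1) : False := by
  obtain ⟨w, hw⟩ : ∃ w, 2 * a = y + w := ⟨2 * a - y, by omega⟩
  have h1 := W.T (x := 3 * a) (y := a + y) (by omega) (by omega) (by omega)
  have h2 := W.T (x := 3 * y) (y := 2 * w) (by omega) (by omega) (by omega)
  have h3 := W.T (x := w) (y := 2 * (a + y)) (by omega) (by omega) (by omega)
  rw [W.m3 (by omega)] at h1
  rw [W.m3 (by omega), W.m2 (by omega)] at h2
  rw [W.m2 (by omega)] at h3
  omega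

theorem lcertE2 (W : WL q L g) {a y : ℕ} (h : q = 4 * a + y) (hL : 10 * L < q)
    (h1 : 8 * a + L < 4 * y) (h2 : 2 * y + L < 7 * a) (ga : g a = 1) (gy : g y = 1) :
    False := by
  obtain ⟨u, hu⟩ : ∃ u, 4 * a = y + u := ⟨4 * a - y, by omega⟩
  obtain ⟨v, hv⟩ : ∃ v, y = 2 * a + v := ⟨y - 2 * a, by omega⟩
  obtain ⟨t, ht⟩ : ∃ t, 7 * a = 2 * y + t := ⟨7 * a - 2 * y, by omega⟩
  obtain ⟨s, hs⟩ : ∃ s, y = a + s := ⟨y - a, by omega⟩
  have k1 := W.T (x := 2 * y) (y := u) (by omega) (by omega) (by omega)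
  have k2 := W.T (x := 3 * u) (y := 4 * v) (by omega) (by omega) (by omega)
  have k3 := W.T (x := 5 * v) (y := 2 * t) (by omega) (by omega) (by omega)
  have k4 := W.T (x := 5 * a) (y := s) (by omega) (by omega) (by omega)
  have k5 := W.T (x := 3 * s) (y := t) (by omega) (by omega) (by omega)
  rw [W.m2 (by omega)] at k1
  rw [W.m3 (by omega), W.m4 (by omega)] at k2
  rw [W.m5 (by omega), W.m2 (by omega)] at k3
  rw [W.m5 (by omega)] at k4
  rw [W.m3 (by omega)] at k5
  omega

theorem lcertE3 (W : WL q L g) {a y : ℕ} (h : q = 4 * a + y)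
    (h1 : 3 * a + L < y) (h2 : y + L < 4 * a) (ga : g a = 1) (gy : g y = 1) : False := by
  obtain ⟨u, hu⟩ : ∃ u, 4 * a = y + u := ⟨4 * a - y, by omega⟩
  obtain ⟨s, hs⟩ : ∃ s, y = 3 * a + s := ⟨y - 3 * a, by omega⟩
  have k1 := W.T (x := 7 * a) (y := s) (by omega) (by omega) (by omega)
  have k2 := W.T (x := 8 * s) (y := 7 * u) (by omega) (by omega) (by omega)
  have k3 := W.T (x := 2 * y) (y := u) (by omega) (by omega) (by omega)
  rw [W.m7 (by omega)] at k1
  rw [W.m8 (by omega), W.m7 (by omega)] at k2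
  rw [W.m2 (by omega)] at k3
  omega

theorem lcertC (W : WL q L g) {a y z : ℕ} (h : q = 2 * a + y) (hL : 10 * L < q)
    (hz : a + y = 3 * z) (h2 : y + 3 * L < 2 * a) (hy : L < 2 * y) (ga : g a = -1)
    (gy : g y = 1) : False := by
  obtain ⟨w, hw⟩ : ∃ w, a = z + w := ⟨a - z, by omega⟩
  have k1 := W.T (x := a) (y := 3 * z) (by omega) (by omega) (by omega)
  have k2 := W.T (x := 4 * z) (y := w) (by omega) (by omega) (by omega)
  have k3 := W.T (x := 2 * y) (y := 3 * w) (by omega) (by omega) (by omega)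
  rw [W.m3 (by omega)] at k1
  rw [W.m4 (by omega)] at k2
  rw [W.m2 (by omega), W.m3 (by omega)] at k3
  omega

theorem lcertA1 (W : WL q L g) {a y : ℕ} (h : q = 6 * a + y) (hL : 10 * L < q)
    (h1 : 2 * a + L < y) (h2 : y + L < 6 * a) (ga : g a = 1) (gy : g y = 1) : False := by
  obtain ⟨w, hw⟩ : ∃ w, y = 2 * a + w := ⟨y - 2 * a, by omega⟩
  obtain ⟨u, hu⟩ : ∃ u, 6 * a = y + u := ⟨6 * a - y, by omega⟩
  have k1 := W.T (x := 8 * a) (y := w) (by omega) (by omega) (by omega)
  have k2 := W.T (x := 2 * y) (y := u) (by omega) (by omega) (by omega)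
  have k3 := W.T (x := 2 * u) (y := 3 * w) (by omega) (by omega) (by omega)
  rw [W.m8 (by omega)] at k1
  rw [W.m2 (by omega)] at k2
  rw [W.m2 (by omega), W.m3 (by omega)] at k3
  omega

theorem lcertA2 (W : WL q L g) {a y : ℕ} (h : q = 6 * a + y) (hL : 10 * L < q)
    (h1 : 2 * y + L < 3 * a) (hy : L < 5 * y) (ga : g a = 1) (gy : g y = 1) : False := by
  obtain ⟨v, hv⟩ : ∃ v, 3 * a = 2 * y + v := ⟨3 * a - 2 * y, by omega⟩
  have k1 := W.T (x := 5 * a) (y := a + y) (by omega) (by omega) (by omega)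
  have k2 := W.T (x := 5 * y) (y := 2 * v) (by omega) (by omega) (by omega)
  have k3 := W.T (x := v) (y := 3 * (a + y)) (by omega) (by omega) (by omega)
  rw [W.m5 (by omega)] at k1
  rw [W.m5 (by omega), W.m2 (by omega)] at k2
  rw [W.m3 (by omega)] at k3
  omega

theorem lcertA3 (W : WL q L g) {a y w v : ℕ} (h : q = 6 * a + y) (hL : 10 * L < q)
    (hw : y = a + 2 * w) (hv : 3 * a = y + 2 * v) (hw0 : L < 2 * w) (hv0 : L < 4 * v)
    (ga : g a = 1) (gy : g y = 1) : False := by
  have k1 := W.T (x := 7 * a) (y := 2 * w) (by omega) (by omega) (by omega)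
  have k2 := W.T (x := 9 * w) (y := 7 * v) (by omega) (by omega) (by omega)
  have k3 := W.T (x := 3 * y) (y := 4 * v) (by omega) (by omega) (by omega)
  rw [W.m7 (by omega), W.m2 (by omega)] at k1
  rw [W.m9 (by omega), W.m7 (by omega)] at k2
  rw [W.m3 (by omega), W.m4 (by omega)] at k3
  omega

theorem lcertB (W : WL q L g) {a y m : ℕ} (h : q = 2 * a + 3 * y) (hL : 10 * L < q)
    (hm : a + y = 2 * m) (hy : L < y) (hy2 : 3 * y < 2 * a) (ga : g a = -1) (gy : g y = -1) :
    False := by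
  have k1 := W.T (x := a) (y := 2 * (m + y)) (by omega) (by omega) (by omega)
  have k2 := W.T (x := m + y) (y := 3 * m) (by omega) (by omega) (by omega)
  have k3 := W.T (x := y) (y := 4 * m) (by omega) (by omega) (by omega)
  rw [W.m2 (by omega)] at k1
  rw [W.m3 (by omega)] at k2
  rw [W.m4 (by omega)] at k3
  omega

/-- The key one-sided statement away from the exceptional zone. -/
theorem lno_bad (W : WL q L g) (hL : 100 * L < q) (hq2 : q % 2 = 1) (hq3 : q % 3 ≠ 0)
    {a y : ℕ} (hy : 3 * L < y) (h : q = 2 * a + y) (hlt : y + 3 * L < 2 * a)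
    (hex : a % 2 = 0 → y % 3 = 0 → a + L < y ∨ y + L < a) (ga : g a = -1) (gy : g y = 1) :
    False := by
  have ha : 0 < a := by omega
  have h3 : a % 3 = 0 ∨ y % 3 = 0 ∨ (a + y) % 3 = 0 := by
    have e1 : a % 3 = 0 ∨ a % 3 = 1 ∨ a % 3 = 2 := by omega
    have e2 : y % 3 = 0 ∨ y % 3 = 1 ∨ y % 3 = 2 := by omega
    rcases e1 with e1 | e1 | e1 <;> rcases e2 with e2 | e2 | e2 <;> omega
  rcases h3 with h3 | h3 | h3
  · obtain ⟨c, hc⟩ : ∃ c, a = 3 * c := ⟨a / 3, by omega⟩
    have hc0 : 0 < c := by omega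
    have gc : g c = 1 := by
      have := W.m3 hc0
      rw [← hc, ga] at this
      omega
    by_cases h4 : 2 * c + L < y
    · exact lcertA1 W (by omega) (by omega) h4 (by omega) gc gy
    · by_cases h5 : 2 * y + L < 3 * c
      · exact lcertA2 W (by omega) (by omega) h5 (by omega) gc gy
      · rcases Nat.even_or_odd' c with ⟨b, hb | hb⟩
        · -- `a` even
          have gb : g (3 * b) = 1 := by
            have := W.m2 (n := 3 * b) (by omega)
            rw [show 2 * (3 * b) = a by omega, ga] at this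
            omega
          exact lcertE1 W (a := 3 * b) (by omega) (by omega) (by omega) gb gy
        · obtain ⟨w, hw⟩ : ∃ w, y = c + 2 * w := ⟨(y - c) / 2, by omega⟩
          obtain ⟨v, hv⟩ : ∃ v, 3 * c = y + 2 * v := ⟨(3 * c - y) / 2, by omega⟩
          exact lcertA3 W (by omega) (by omega) hw hv (by omega) (by omega) gc gy
  · obtain ⟨c, hc⟩ : ∃ c, y = 3 * c := ⟨y / 3, by omega⟩
    have hc0 : 0 < c := by omega
    have gc : g c = -1 := by
      have := W.m3 hc0
      rw [← hc, gy] at this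
      omega
    rcases Nat.even_or_odd' a with ⟨b, hb | hb⟩
    · have hb0 : 0 < b := by omega
      have gb : g b = 1 := by
        have := W.m2 hb0
        rw [← hb, ga] at this
        omega
      rcases hex (by omega) h3 with h1 | h1
      · by_cases h2 : 2 * y + L < 7 * b
        · exact lcertE2 W (by omega) (by omega) (by omega) h2 gb gy
        · exact lcertE3 W (by omega) (by omega) (by omega) gb gy
      · exact lcertE1 W (by omega) (by omega) (by omega) gb gy
    · obtain ⟨m, hm⟩ : ∃ m, a + c = 2 * m := ⟨(a + c) / 2, by omega⟩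
      exact lcertB W (by omega) (by omega) hm (by omega) (by omega) ga gc
  · obtain ⟨c, hc⟩ : ∃ c, a + y = 3 * c := ⟨(a + y) / 3, by omega⟩
    exact lcertC W h (by omega) hc hlt (by omega) ga gy

/-- The two-sided statement away from the exceptional zone. -/
theorem ltwo_key (W : WL q L g) (hL : 100 * L < q) (hq2 : q % 2 = 1) (hq3 : q % 3 ≠ 0)
    {a y : ℕ} (hy : 3 * L < y) (h : q = 2 * a + y) (hlt : y + 3 * L < 2 * a)
    (hex : a % 2 = 0 → y % 3 = 0 → a + L < y ∨ y + L < a) : g a = g y := by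
  have h1 := W.T (x := 2 * a) (y := y) (by omega) (by omega) (by omega)
  rw [W.m2 (by omega)] at h1
  have h2 := W.val a (by omega)
  have h3 := W.val y (by omega)
  have h4 := lno_bad W hL hq2 hq3 hy h hlt hex
  by_cases e : g a = g y
  · exact e
  · exfalso
    exact h4 (by omega) (by omega)

end Pool.Agent.LamGold
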