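import Pool.Agent.LamGold.R1

set_option autoImplicit false

/-!
# Exactness near `q/4`, and the two-sided statement without exceptions
-/

namespace Pool.Agent.LamGold

/-- The odd extension of `g` to the integers. -/
def GG (g : ℕ → ℤ) (v : ℤ) : ℤ := v.sign * g v.natAbs

variable {q L : ℕ} {g : ℕ → ℤ}

theorem GG_neg (v : ℤ) : GG g (-v) = - GG g v := by
  unfold GG
  rw [Int.sign_neg, Int.natAbs_neg]; ring

theorem GG_nat {n : ℕ} (hn : 0 < n) : GG g (n : ℤ) = g n := by
  unfold GG
  rw [Int.sign_eq_one_of_pos (by exact_mod_cast hn), Int.natAbs_natCast, one_mul]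

theorem GG_pos {v : ℤ} {n : ℕ} (hn : 0 < n) (h : v = n) : GG g v = g n := by
  rw [h, GG_nat hn]

theorem GG_neg' {v : ℤ} {n : ℕ} (hn : 0 < n) (h : v = -(n : ℤ)) : GG g v = - g n := by
  rw [h, GG_neg, GG_nat hn]

theorem GG_mul (W : WL q L g) {k : ℕ} (hk : 0 < k) {v : ℤ} (hv : v ≠ 0) :
    GG g (k * v) = fs k * GG g v := by
  unfold GG
  have h1 : ((k : ℤ) * v).natAbs = k * v.natAbs := by
    rw [Int.natAbs_mul, Int.natAbs_natCast]
  rw [h1, W.mul k _ hk (Int.natAbs_pos.2 hv), Int.sign_mul,
    Int.sign_eq_one_of_pos (by exact_mod_cast hk)]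
  ring

theorem GG_val (W : WL q L g) {v : ℤ} (hv : v ≠ 0) : GG g v = 1 ∨ GG g v = -1 := by
  unfold GG
  have h1 := W.val v.natAbs (Int.natAbs_pos.2 hv)
  rcases lt_or_gt_of_ne hv with h | h
  · rw [Int.sign_eq_neg_one_of_neg h]
    rcases h1 with h1 | h1 <;> rw [h1] <;> norm_num
  · rw [Int.sign_eq_one_of_pos h]
    rcases h1 with h1 | h1 <;> rw [h1] <;> norm_num

/-- Exactness near `q/4` outside the tiny zone. -/
theorem quarter_far (W : WL q L g) (hL : 100 * L < q) (hq2 : q % 2 = 1) (hq3 : q % 3 ≠ 0)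
    {a : ℕ} {v : ℤ} (hv : (4 * a : ℤ) = q + v) (h1 : 3 * (L : ℤ) < |v|) (h2 : |v| ≤ 15 * L) :
    g a = GG g v := by
  rcases le_total 0 v with h0 | h0
  · rw [abs_of_nonneg h0] at h1 h2
    obtain ⟨n, hn⟩ : ∃ n : ℕ, v = n := ⟨v.toNat, by omega⟩
    subst hn
    obtain ⟨y, hy⟩ : ∃ y, q = 2 * a + y := ⟨q - 2 * a, by omega⟩
    rw [GG_nat (by omega)]
    have e1 : g a = g y := ltwo_key W hL hq2 hq3 (by omega) hy (by omega)
      (fun _ _ => Or.inl (by omega))
    have e2 : g y = g n := ltwo_key W hL hq2 hq3 (by omega) (by omega) (by omega)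
      (fun _ _ => Or.inr (by omega))
    rw [e1, e2]
  · rw [abs_of_nonpos h0] at h1 h2
    obtain ⟨n, hn⟩ : ∃ n : ℕ, v = -(n : ℤ) := ⟨(-v).toNat, by omega⟩
    subst hn
    rw [GG_neg, GG_nat (by omega)]
    have e1 : g (2 * a) = g n := ltwo_key W hL hq2 hq3 (by omega) (by omega) (by omega)
      (fun _ _ => Or.inr (by omega))
    rw [W.m2 (by omega)] at e1
    omega

/-- One direction of exactness near `q/4`. -/
theorem quarter_plus (W : WL q L g) (hL : 100 * L < q) (hq2 : q % 2 = 1) (hq3 : q % 3 ≠ 0) :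
    ∀ (n a : ℕ) (v : ℤ), (4 * a : ℤ) = q + v → |v| ≤ 15 * L → 15 * (L : ℤ) - |v| < n →
      g a = 1 → GG g v = 1 := by
  intro n
  induction n with
  | zero =>
    intro a v _ h1 h2
    exfalso
    push_cast at h2
    omega
  | succ n ih =>
    intro a v hv h1 h2 ga
    have hv0 : v ≠ 0 := by rintro rfl; omega
    by_cases h3 : 3 * (L : ℤ) < |v|
    · rw [← quarter_far W hL hq2 hq3 hv h3 h1, ga]
    · push Not at h3
      have habs : 0 < |v| := abs_pos.2 hv0
      have hlo := neg_abs_le v
      have hhi := le_abs_self v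
      obtain ⟨b, hb⟩ : ∃ b, q = 3 * a + b := ⟨q - 3 * a, by omega⟩
      have k1 := W.T (x := 3 * a) (y := b) (by omega) (by omega) (by omega)
      rw [W.m3 (by omega), ga] at k1
      have gb : g b = 1 := by omega
      have e1 : |(-(3 : ℕ) * v : ℤ)| = 3 * |v| := by
        rw [abs_mul]; norm_num
      have k2 := ih b (-(3 : ℕ) * v) (by push_cast; omega) (by rw [e1]; omega)
        (by rw [e1]; push_cast at h2; omega) gb
      rw [neg_mul, GG_neg, GG_mul W (by norm_num) hv0, fs_three] at k2
      linarith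

theorem quarter_plus' (W : WL q L g) (hL : 100 * L < q) (hq2 : q % 2 = 1) (hq3 : q % 3 ≠ 0)
    {a : ℕ} {v : ℤ} (hv : (4 * a : ℤ) = q + v) (h1 : |v| ≤ 15 * L) (ga : g a = 1) :
    GG g v = 1 :=
  quarter_plus W hL hq2 hq3 (15 * L + 1) a v hv h1
    (by push_cast; have := abs_nonneg v; omega) ga

/-- One direction of exactness near `q/3`. -/
theorem third_chain (W : WL q L g) (hL : 100 * L < q) (hq3 : q % 3 ≠ 0) :
    ∀ (n c : ℕ) (w : ℤ), (3 * c : ℤ) = q - w → -2 * (L : ℤ) ≤ w → w ≤ 4 * L →
      4 * (L : ℤ) - |w| < n → g c = 1 → GG g w = 1 := by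
  intro n
  induction n with
  | zero =>
    intro c w _ h1 h2 h3
    exfalso
    push_cast at h3
    rcases abs_cases w with ⟨h, _⟩ | ⟨h, _⟩ <;> omega
  | succ n ih =>
    intro c w hw h1 h2 h3 gc
    have hw0 : w ≠ 0 := by rintro rfl; omega
    by_cases h4 : (L : ℤ) < w
    · obtain ⟨m, hm⟩ : ∃ m : ℕ, w = m := ⟨w.toNat, by omega⟩
      subst hm
      rw [GG_nat (by omega)]
      have k1 := W.T (x := 3 * c) (y := m) (by omega) (by omega) (by omega)
      rw [W.m3 (by omega), gc] at k1
      omega
    · push Not at h4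
      obtain ⟨b, hb⟩ : ∃ b, q = 2 * c + b := ⟨q - 2 * c, by omega⟩
      have k1 := W.T (x := 2 * c) (y := b) (by omega) (by omega) (by omega)
      rw [W.m2 (by omega), gc] at k1
      have gb : g b = 1 := by omega
      have e1 : |(-(2 : ℕ) * w : ℤ)| = 2 * |w| := by
        rw [abs_mul]; norm_num
      have habs : 0 < |w| := abs_pos.2 hw0
      have k2 := ih b (-(2 : ℕ) * w) (by push_cast; omega) (by push_cast; omega)
        (by push_cast; omega) (by rw [e1]; push_cast at h3; omega) gb
      rw [neg_mul, GG_neg, GG_mul W (by norm_num) hw0, fs_two] at k2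
      linarith

theorem third_chain' (W : WL q L g) (hL : 100 * L < q) (hq3 : q % 3 ≠ 0)
    {c : ℕ} {w : ℤ} (hw : (3 * c : ℤ) = q - w) (h1 : |w| ≤ 2 * L) (gc : g c = 1) :
    GG g w = 1 :=
  third_chain W hL hq3 (4 * L + 1) c w hw (by have := neg_abs_le w; omega)
    (by have := le_abs_self w; omega) (by push_cast; have := abs_nonneg w; omega) gc

/-- The path towards `q/3`. -/
theorem lpath (W : WL q L g) (hL : 100 * L < q) (hq2 : q % 2 = 1) (hq3 : q % 3 ≠ 0) :
    ∀ (n x : ℕ), |(q : ℤ) - 3 * x| < n → 31 * q < 100 * x → 100 * x < 38 * q → g x = -1 →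
      ∀ m : ℕ, 5 * x + m = 2 * q → g m = -1 := by
  intro n
  induction n with
  | zero =>
    intro x h
    exfalso
    push_cast at h
    have := abs_nonneg ((q : ℤ) - 3 * x)
    omega
  | succ n ih =>
    intro x h1 h2 h3 gx m hm
    rcases Nat.even_or_odd' x with ⟨h, hx | hx⟩
    · -- `x` even
      have gh : g h = 1 := by
        have := W.m2 (n := h) (by omega)
        rw [← hx, gx] at this
        omega
      obtain ⟨y, hy⟩ : ∃ y, q = 5 * h + y := ⟨q - 5 * h, by omega⟩
      have k1 := W.T (x := 5 * h) (y := y) (by omega) (by omega) (by omega)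
      rw [W.m5 (by omega), gh] at k1
      have gy : g y = 1 := by omega
      have : m = 2 * y := by omega
      rw [this, W.m2 (by omega), gy]
    · -- `x` odd
      obtain ⟨x', hx'⟩ : ∃ x', q = x + 2 * x' := ⟨(q - x) / 2, by omega⟩
      have k1 := W.T (x := x) (y := 2 * x') (by omega) (by omega) (by omega)
      rw [W.m2 (by omega), gx] at k1
      have gx' : g x' = -1 := by omega
      obtain ⟨m', hm'⟩ : ∃ m', 5 * x' + m' = 2 * q := ⟨2 * q - 5 * x', by omega⟩
      have hne : (q : ℤ) - 3 * x ≠ 0 := by omega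
      have hpos : 0 < |(q : ℤ) - 3 * x| := abs_pos.2 hne
      have e1 : |(q : ℤ) - 3 * x| = 2 * |(q : ℤ) - 3 * x'| := by
        have : (q : ℤ) - 3 * x = (-2) * ((q : ℤ) - 3 * x') := by
          have : (q : ℤ) = x + 2 * x' := by exact_mod_cast hx'
          linarith
        rw [this, abs_mul]; norm_num
      have gm' : g m' = -1 := ih x' (by push_cast at h1; omega) (by omega) (by omega) gx' m' hm'
      have hmm : q = 2 * m' + m := by omega
      by_cases hex : m' % 2 = 0 → m % 3 = 0 → m' + L < m ∨ m + L < m'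
      · have := ltwo_key W hL hq2 hq3 (a := m') (y := m) (by omega) hmm (by omega) hex
        rw [← this, gm']
      · -- exceptional zone
        push Not at hex
        obtain ⟨hm2, hm3, hm4, hm5⟩ := hex
        rcases W.val m (by omega) with gm | gm
        · exfalso
          -- `w = q - 3 m'`
          obtain ⟨w, hw⟩ : ∃ w : ℤ, w = q - 3 * m' := ⟨_, rfl⟩
          have hw0 : w ≠ 0 := by omega
          have c1 := third_chain' W hL hq3 (c := m) (w := -(2 : ℕ) * w) (by push_cast; omega)
            (by rw [abs_mul]; norm_num; rw [abs_le]; constructor <;> omega) gm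
          rw [neg_mul, GG_neg, GG_mul W (by norm_num) hw0, fs_two] at c1
          have c1' : GG g w = 1 := by linarith
          obtain ⟨h, hh⟩ : ∃ h, x' = 2 * h := ⟨x' / 2, by omega⟩
          obtain ⟨y, hy⟩ : ∃ y, q = 5 * h + y := ⟨q - 5 * h, by omega⟩
          have gh : g h = 1 := by
            have := W.m2 (n := h) (by omega)
            rw [← hh, gx'] at this
            omega
          rcases Nat.even_or_odd' y with ⟨z, hz | hz⟩
          · have gy : g y = 1 := by
              have := W.m2 (n := y) (by omega)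
              rw [show 2 * y = m' by omega, gm'] at this
              omega
            have gz : g z = -1 := by
              have := W.m2 (n := z) (by omega)
              rw [← hz, gy] at this
              omega
            have g3z : g (3 * z) = 1 := by rw [W.m3 (by omega), gz]; norm_num
            have c2 := quarter_plus' W hL hq2 hq3 (a := 3 * z) (v := -w) (by push_cast; omega)
              (by rw [abs_neg, abs_le]; constructor <;> omega) g3z
            rw [GG_neg, c1'] at c2
            omega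
          · obtain ⟨z', hz'⟩ : ∃ z', h = 2 * z' := ⟨h / 2, by omega⟩
            have gz : g z' = -1 := by
              have := W.m2 (n := z') (by omega)
              rw [← hz', gh] at this
              omega
            have g3z : g (3 * z') = 1 := by rw [W.m3 (by omega), gz]; norm_num
            obtain ⟨u, hu⟩ : ∃ u : ℤ, u = q - 3 * x' := ⟨_, rfl⟩
            have hwu : w = -(5 : ℕ) * u := by push_cast; omega
            have hu0 : u ≠ 0 := by omega
            have c2 := quarter_plus' W hL hq2 hq3 (a := 3 * z') (v := -u) (by push_cast; omega)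
              (by rw [abs_neg, abs_le]; push_cast at hwu; constructor <;> omega) g3z
            rw [hwu, neg_mul, GG_neg, GG_mul W (by norm_num) hu0, fs_five] at c1'
            rw [GG_neg] at c2
            omega
        · exact gm

/-- Exactness near `q/4`. -/
theorem quarter (W : WL q L g) (hL : 100 * L < q) (hq2 : q % 2 = 1) (hq3 : q % 3 ≠ 0)
    {a : ℕ} {v : ℤ} (hv : (4 * a : ℤ) = q + v) (h1 : |v| ≤ 3 * L) : g a = GG g v := by
  have hv0 : v ≠ 0 := by rintro rfl; omega
  have hlo := neg_abs_le v
  have hhi := le_abs_self v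
  have h15 : |v| ≤ 15 * L := by omega
  have h5 : |((5 : ℕ) * v : ℤ)| ≤ 15 * L := by rw [abs_mul]; norm_num; omega
  rcases W.val a (by omega) with ga | ga
  · rw [ga, quarter_plus' W hL hq2 hq3 hv h15 ga]
  · rcases Nat.even_or_odd' a with ⟨b, hb | hb⟩
    · have gb : g b = 1 := by
        have := W.m2 (n := b) (by omega)
        rw [← hb, ga] at this
        omega
      obtain ⟨e, he⟩ : ∃ e, q = 5 * b + e := ⟨q - 5 * b, by omega⟩
      have k1 := W.T (x := 5 * b) (y := e) (by omega) (by omega) (by omega)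
      rw [W.m5 (by omega), gb] at k1
      have ge : g e = 1 := by omega
      obtain ⟨y, hy⟩ : ∃ y, q = 2 * e + y := ⟨q - 2 * e, by omega⟩
      have e1 : g e = g y := ltwo_key W hL hq2 hq3 (by omega) hy (by omega)
        (fun _ _ => Or.inr (by omega))
      have c2 := quarter_plus' W hL hq2 hq3 (a := y) (v := (5 : ℕ) * v) (by push_cast; omega)
        h5 (by rw [← e1, ge])
      rw [GG_mul W (by norm_num) hv0, fs_five] at c2
      rw [ga]; linarith
    · obtain ⟨x, hx⟩ : ∃ x, q = a + 2 * x := ⟨(q - a) / 2, by omega⟩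
      have k1 := W.T (x := a) (y := 2 * x) (by omega) (by omega) (by omega)
      rw [W.m2 (by omega), ga] at k1
      have gx : g x = -1 := by omega
      obtain ⟨m, hm⟩ : ∃ m, 5 * x + m = 2 * q := ⟨2 * q - 5 * x, by omega⟩
      obtain ⟨n, hn⟩ : ∃ n : ℕ, |(q : ℤ) - 3 * x| < n :=
        ⟨(|(q : ℤ) - 3 * x|).toNat + 1, by
          have := abs_nonneg ((q : ℤ) - 3 * x)
          push_cast
          omega⟩
      have gm := lpath W hL hq2 hq3 n x hn (by omega) (by omega) gx m hm
      have g2m : g (2 * m) = 1 := by rw [W.m2 (by omega), gm]; norm_num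
      have c2 := quarter_plus' W hL hq2 hq3 (a := 2 * m) (v := (5 : ℕ) * v)
        (by push_cast; omega) h5 g2m
      rw [GG_mul W (by norm_num) hv0, fs_five] at c2
      rw [ga]; linarith

/-- The two-sided statement. -/
theorem ltwo (W : WL q L g) (hL : 100 * L < q) (hq2 : q % 2 = 1) (hq3 : q % 3 ≠ 0)
    {a y : ℕ} (hy : 3 * L < y) (h : q = 2 * a + y) (hlt : y + 3 * L < 2 * a) : g a = g y := by
  by_cases hex : a % 2 = 0 → y % 3 = 0 → a + L < y ∨ y + L < a
  · exact ltwo_key W hL hq2 hq3 hy h hlt hex
  · push Not at hex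
    obtain ⟨hm2, hm3, hm4, hm5⟩ := hex
    have h1 := W.T (x := 2 * a) (y := y) (by omega) (by omega) (by omega)
    rw [W.m2 (by omega)] at h1
    by_cases e : g a = g y
    · exact e
    · exfalso
      have h2 := W.val a (by omega)
      have h3 := W.val y (by omega)
      have ga : g a = -1 := by omega
      have gy : g y = 1 := by omega
      obtain ⟨w, hw⟩ : ∃ w : ℤ, w = q - 3 * a := ⟨_, rfl⟩
      have hw0 : w ≠ 0 := by omega
      have c1 := third_chain' W hL hq3 (c := y) (w := -(2 : ℕ) * w) (by push_cast; omega)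
        (by rw [abs_mul]; norm_num; rw [abs_le]; constructor <;> omega) gy
      rw [neg_mul, GG_neg, GG_mul W (by norm_num) hw0, fs_two] at c1
      have c1' : GG g w = 1 := by linarith
      obtain ⟨z, hz⟩ : ∃ z, a = 2 * z := ⟨a / 2, by omega⟩
      have gz : g z = 1 := by
        have := W.m2 (n := z) (by omega)
        rw [← hz, ga] at this
        omega
      rcases Nat.even_or_odd' z with ⟨t, ht | ht⟩
      · have gt : g t = -1 := by
          have := W.m2 (n := t) (by omega)
          rw [← ht, gz] at this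
          omega
        have g3t : g (3 * t) = 1 := by rw [W.m3 (by omega), gt]; norm_num
        have c2 := quarter_plus' W hL hq2 hq3 (a := 3 * t) (v := -w) (by push_cast; omega)
          (by rw [abs_neg, abs_le]; constructor <;> omega) g3t
        rw [GG_neg, c1'] at c2
        omega
      · obtain ⟨b, hb⟩ : ∃ b, q = 3 * z + 2 * b := ⟨(q - 3 * z) / 2, by omega⟩
        have k1 := W.T (x := 3 * z) (y := 2 * b) (by omega) (by omega) (by omega)
        rw [W.m3 (by omega), W.m2 (by omega), gz] at k1
        have gb : g b = -1 := by omega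
        have c2 := quarter W hL hq2 hq3 (a := b) (v := w) (by push_cast; omega)
          (by rw [abs_le]; constructor <;> omega)
        rw [gb, c1'] at c2
        omega

end Pool.Agent.LamGold
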