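import Pool.Agent.LamGold.R2
import Pool.Agent.LamGold.Desc

set_option autoImplicit false

/-!
# Equivariance under `2` and `3` with small elements excluded
-/

namespace Pool.Agent.LamGold

/-- The corrected function on `(0, q/2)`. -/
def HH (q L : ℕ) (g : ℕ → ℤ) (x : ℕ) : ℤ := if q - 2 * x ≤ 3 * L then g (q - 2 * x) else g x

variable {q L : ℕ} {g : ℕ → ℤ}

theorem HH_far {x : ℕ} (h : 3 * L < q - 2 * x) : HH q L g x = g x := by
  unfold HH; rw [if_neg (by omega)]

theorem HH_near {x : ℕ} (h : q - 2 * x ≤ 3 * L) : HH q L g x = g (q - 2 * x) := by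
  unfold HH; rw [if_pos h]

/-- Value at `x < q/2`, far from `q/2`. -/
theorem FH_lo (hq0 : 0 < q) {x : ℕ} (h0 : 0 < x) (h : 2 * x + 3 * L < q) :
    FF q (HH q L g) (x : ZMod q) = g x := by
  rw [FF_nat_lt hq0 h0 (by omega), HH_far (by omega)]

theorem FH_lo_near (hq0 : 0 < q) {x : ℕ} (h0 : 0 < x) (h : 2 * x < q) (h2 : q ≤ 2 * x + 3 * L) :
    FF q (HH q L g) (x : ZMod q) = g (q - 2 * x) := by
  rw [FF_nat_lt hq0 h0 (by omega), HH_near (by omega)]

theorem FH_hi (hq0 : 0 < q) {x : ℕ} (h0 : x < q) (h : q + 3 * L < 2 * x) :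
    FF q (HH q L g) (x : ZMod q) = - g (q - x) := by
  rw [FF_nat_gt hq0 (by omega) h0, HH_far (by omega)]

theorem FH_hi_near (hq0 : 0 < q) {x : ℕ} (h0 : x < q) (h : q < 2 * x) (h2 : 2 * x ≤ q + 3 * L) :
    FF q (HH q L g) (x : ZMod q) = - g (2 * x - q) := by
  rw [FF_nat_gt hq0 (by omega) h0, HH_near (by omega)]
  congr 2
  omega

theorem lTT_two (W : WL q L g) (hL : 100 * L < q) (hq2 : q % 2 = 1) (hq3 : q % 3 ≠ 0) :
    TT q (HH q L g) 2 := by
  have hq0 : 0 < q := by omega
  have key : ∀ x : ℕ, 0 < x → 2 * x < q →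
      FF q (HH q L g) ((2 : ℕ) * (x : ZMod q)) = fs 2 * FF q (HH q L g) x := by
    intro x hx hxq
    have e : ((2 : ℕ) : ZMod q) * (x : ZMod q) = ((2 * x : ℕ) : ZMod q) := by push_cast; ring
    rw [e, fs_two]
    rcases Nat.lt_or_ge (4 * x) q with h | h
    · rw [FH_lo hq0 hx (by omega)]
      by_cases h1 : 4 * x + 3 * L < q
      · rw [FH_lo hq0 (by omega) (by omega), W.m2 hx]; ring
      · rw [FH_lo_near hq0 (by omega) (by omega) (by omega)]
        obtain ⟨n, hn⟩ : ∃ n, q = 4 * x + n := ⟨q - 4 * x, by omega⟩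
        have := quarter W hL hq2 hq3 (a := x) (v := -(n : ℤ)) (by omega)
          (by rw [abs_neg, abs_of_nonneg (by omega)]; omega)
        rw [GG_neg, GG_nat (by omega)] at this
        rw [this, show q - 2 * (2 * x) = n by omega]; ring
    · have h' : q < 4 * x := by omega
      by_cases h1 : 4 * x ≤ q + 3 * L
      · rw [FH_hi_near hq0 (by omega) (by omega) (by omega), FH_lo hq0 hx (by omega)]
        obtain ⟨n, hn⟩ : ∃ n, 4 * x = q + n := ⟨4 * x - q, by omega⟩
        have := quarter W hL hq2 hq3 (a := x) (v := (n : ℤ)) (by omega)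
          (by rw [abs_of_nonneg (by omega)]; omega)
        rw [GG_nat (by omega)] at this
        rw [this, show 2 * (2 * x) - q = n by omega]; ring
      · rw [FH_hi hq0 (by omega) (by omega)]
        by_cases h2 : q ≤ 2 * x + 3 * L
        · rw [FH_lo_near hq0 hx hxq h2]; ring
        · rw [FH_lo hq0 hx (by omega)]
          have := ltwo W hL hq2 hq3 (a := x) (y := q - 2 * x) (by omega) (by omega) (by omega)
          rw [this]; ring
  intro a
  by_cases ha : a = 0
  · subst ha; simp [FF_zero]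
  · obtain ⟨x, hx, hxq, rfl | rfl⟩ := exists_nat_rep hq2 ha
    · exact key x hx hxq
    · rw [mul_neg, FF_neg hq2, FF_neg hq2, key x hx hxq]; ring

theorem lbad_three_sign (W : WL q L g) (hL : 100 * L < q) {b : ℕ} (h1 : q + 3 * L < 6 * b)
    (h2 : 3 * b + L < q) (hb : Bad q (HH q L g) 3 (b : ZMod q)) : g b = -1 := by
  have hb0 : 0 < b := by omega
  have hq0 : 0 < q := by omega
  have h3 := W.T (x := 3 * b) (y := q - 3 * b) (by omega) (by omega) (by omega)
  rw [W.m3 hb0] at h3
  have h4 := W.val b hb0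
  have h5 := W.val (q - 3 * b) (by omega)
  unfold Bad at hb
  have e : ((3 : ℕ) : ZMod q) * (b : ZMod q) = ((3 * b : ℕ) : ZMod q) := by push_cast; ring
  rw [e, fs_three, FH_hi hq0 (by omega) (by omega), FH_lo hq0 hb0 (by omega)] at hb
  omega

theorem lthird_bad (W : WL q L g) (hL : 160 * L < q) (hq2 : q % 2 = 1) (hq3 : q % 3 ≠ 0) :
    ∀ (n c : ℕ) (w : ℤ), (3 * c : ℤ) = q - w → -24 * (L : ℤ) ≤ w → w ≤ 48 * L →
      48 * (L : ℤ) - |w| < n → Bad q (HH q L g) 3 (c : ZMod q) →
      FF q (HH q L g) (c : ZMod q) = -1 := by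
  have hq0 : 0 < q := by omega
  intro n
  induction n with
  | zero =>
    intro c w _ h1 h2 h3
    exfalso
    push_cast at h3
    rcases abs_cases w with ⟨h, _⟩ | ⟨h, _⟩ <;> omega
  | succ n ih =>
    intro c w hw h1 h2 h3 hbad
    have hw0 : w ≠ 0 := by rintro rfl; omega
    by_cases h4 : (L : ℤ) < w
    · rw [FH_lo hq0 (by omega) (by omega)]
      exact lbad_three_sign W (by omega) (by omega) (by omega) hbad
    · push Not at h4
      obtain ⟨b, hb⟩ : ∃ b, q = 2 * c + b := ⟨q - 2 * c, by omega⟩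
      have t2 := lTT_two W (by omega) hq2 hq3
      have hbad' : Bad q (HH q L g) 3 (b : ZMod q) := hbad.nat_add (i := 1) hq2 t2 (by omega)
      have e1 : |(-(2 : ℕ) * w : ℤ)| = 2 * |w| := by
        rw [abs_mul]; norm_num
      have habs : 0 < |w| := abs_pos.2 hw0
      have k2 := ih b (-(2 : ℕ) * w) (by push_cast; omega) (by push_cast; omega)
        (by push_cast; omega) (by rw [e1]; push_cast at h3; omega) hbad'
      have e2 : ((b : ℕ) : ZMod q) = -(((2 : ℕ) : ZMod q) * (c : ZMod q)) := by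
        have := congrArg (Nat.cast : ℕ → ZMod q) hb
        push_cast at this
        rw [ZMod.natCast_self] at this
        push_cast
        linear_combination this.symm
      rw [e2, FF_neg hq2, t2, fs_two] at k2
      linarith

theorem lsixth_chain (W : WL q L g) (hL : 160 * L < q) (hq2 : q % 2 = 1) (hq3 : q % 3 ≠ 0) :
    ∀ (n b : ℕ) (t : ℤ), (6 * b : ℤ) = q + t → -15 * (L : ℤ) ≤ t → t ≤ 75 * L →
      75 * (L : ℤ) - |t| < n → g b = 1 → GG g t = -1 → False := by
  intro n
  induction n with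
  | zero =>
    intro b t _ h1 h2 h3
    exfalso
    push_cast at h3
    rcases abs_cases t with ⟨h, _⟩ | ⟨h, _⟩ <;> omega
  | succ n ih =>
    intro b t ht h1 h2 h3 gb gt
    have ht0 : t ≠ 0 := by rintro rfl; omega
    by_cases h4 : 3 * (L : ℤ) < t
    · obtain ⟨m, hm⟩ : ∃ m : ℕ, t = m := ⟨t.toNat, by omega⟩
      subst hm
      rw [GG_nat (by omega)] at gt
      obtain ⟨c, hc⟩ : ∃ c, q = 3 * b + c := ⟨q - 3 * b, by omega⟩
      have e1 : g c = g m := ltwo W (by omega) hq2 hq3 (by omega) (by omega) (by omega)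
      have k1 := W.T (x := 3 * b) (y := c) (by omega) (by omega) (by omega)
      rw [W.m3 (by omega), gb, e1, gt] at k1
      omega
    · push Not at h4
      obtain ⟨c, hc⟩ : ∃ c, q = 5 * b + c := ⟨q - 5 * b, by omega⟩
      have k1 := W.T (x := 5 * b) (y := c) (by omega) (by omega) (by omega)
      rw [W.m5 (by omega), gb] at k1
      have gc : g c = 1 := by omega
      have e1 : |(-(5 : ℕ) * t : ℤ)| = 5 * |t| := by
        rw [abs_mul]; norm_num
      have habs : 0 < |t| := abs_pos.2 ht0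
      refine ih c (-(5 : ℕ) * t) (by push_cast; omega) (by push_cast; omega)
        (by push_cast; omega) (by rw [e1]; push_cast at h3; omega) gc ?_
      rw [neg_mul, GG_neg, GG_mul W (by norm_num) ht0, fs_five, gt]; norm_num

theorem lTT_three (W : WL q L g) (hL : 160 * L < q) (hq2 : q % 2 = 1) (hq3 : q % 3 ≠ 0)
    (hq5 : q % 5 ≠ 0) : TT q (HH q L g) 3 := by
  have t2 : TT q (HH q L g) 2 := lTT_two W (by omega) hq2 hq3
  have t4 : TT q (HH q L g) 4 := TT_mul (k := 2) (l := 2) (by norm_num) (by norm_num) t2 t2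
  have t16 : TT q (HH q L g) 16 := TT_mul (k := 4) (l := 4) (by norm_num) (by norm_num) t4 t4
  have hq0 : 0 < q := by omega
  apply TT_of_descent hq2
  intro b hb hbq hbad
  have n3 : q ≠ 3 * b := fun h => hq3 (by rw [h]; simp)
  have n5 : q ≠ 5 * b := fun h => hq5 (by rw [h]; simp)
  rcases Nat.lt_or_ge (6 * b + 3 * L) q with h6 | h6
  · exfalso
    apply hbad
    have e : ((3 : ℕ) : ZMod q) * (b : ZMod q) = ((3 * b : ℕ) : ZMod q) := by push_cast; ring
    rw [e, FH_lo hq0 (by omega) (by omega), FH_lo hq0 hb (by omega), W.m3 hb, fs_three]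
    ring
  rcases Nat.lt_or_ge q (3 * b) with h3 | h3
  · exact ⟨q - 2 * b, by omega, by omega, hbad.nat_add (i := 1) hq2 t2 (by omega)⟩
  rcases Nat.lt_or_ge q (4 * b) with h4 | h4
  · exact ⟨4 * b - q, by omega, by omega, hbad.nat_sub (i := 1) hq2 t4 (by omega)⟩
  rcases Nat.lt_or_ge q (5 * b) with h5 | h5
  · exact ⟨q - 4 * b, by omega, by omega, hbad.nat_add (i := 1) hq2 t4 (by omega)⟩
  rcases Nat.lt_or_ge (3 * q) (16 * b) with h16 | h16
  · exact ⟨16 * b - 3 * q, by omega, by omega, hbad.nat_sub (i := 3) hq2 t16 (by omega)⟩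
  rcases Nat.lt_or_ge (3 * q) (17 * b) with h17 | h17
  · exact ⟨3 * q - 16 * b, by omega, by omega, hbad.nat_add (i := 3) hq2 t16 (by omega)⟩
  exfalso
  obtain ⟨r, hr⟩ : ∃ r, 16 * b + r = 3 * q := ⟨3 * q - 16 * b, by omega⟩
  have hrbad : Bad q (HH q L g) 3 (r : ZMod q) := hbad.nat_add (i := 3) hq2 t16 hr
  have e1 : FF q (HH q L g) (r : ZMod q) = - FF q (HH q L g) (b : ZMod q) := by
    have e2 : (r : ZMod q) = -(((16 : ℕ) : ZMod q) * (b : ZMod q)) := by
      have := congrArg (Nat.cast : ℕ → ZMod q) hr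
      push_cast at this
      rw [ZMod.natCast_self] at this
      push_cast
      linear_combination this
    rw [e2, FF_neg hq2, t16, fs_sixteen]; ring
  by_cases h7 : q + 3 * L < 6 * b
  · have s1 := lbad_three_sign W (by omega) h7 (by omega) hbad
    have s2 := lbad_three_sign W (by omega) (b := r) (by omega) (by omega) hrbad
    rw [FH_lo hq0 (by omega) (by omega), FH_lo hq0 hb (by omega)] at e1
    omega
  · obtain ⟨t, ht⟩ : ∃ t : ℤ, t = 6 * b - q := ⟨_, rfl⟩
    have s1 := lthird_bad W hL hq2 hq3 (48 * L + 1) r (8 * t) (by omega) (by omega) (by omega)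
      (by push_cast; have := abs_nonneg (8 * t); omega) hrbad
    rw [e1, FH_lo hq0 hb (by omega)] at s1
    have gb : g b = 1 := by omega
    have ht0 : t ≠ 0 := by omega
    refine lsixth_chain W hL hq2 hq3 (75 * L + 1) b t (by omega) (by omega) (by omega)
      (by push_cast; have := abs_nonneg t; omega) gb ?_
    -- badness at `b`
    unfold Bad at hbad
    have e : ((3 : ℕ) : ZMod q) * (b : ZMod q) = ((3 * b : ℕ) : ZMod q) := by push_cast; ring
    rw [e, fs_three, FH_lo hq0 hb (by omega), gb] at hbad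
    rcases lt_or_gt_of_ne ht0 with h | h
    · obtain ⟨n, hn⟩ : ∃ n : ℕ, t = -(n : ℤ) := ⟨(-t).toNat, by omega⟩
      rw [FH_lo_near hq0 (by omega) (by omega) (by omega),
        show q - 2 * (3 * b) = n by omega] at hbad
      rw [hn, GG_neg, GG_nat (by omega)]
      have := W.val n (by omega)
      omega
    · obtain ⟨n, hn⟩ : ∃ n : ℕ, t = (n : ℤ) := ⟨t.toNat, by omega⟩
      rw [FH_hi_near hq0 (by omega) (by omega) (by omega),
        show 2 * (3 * b) - q = n by omega] at hbad
      rw [hn, GG_nat (by omega)]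
      have := W.val n (by omega)
      omega

end Pool.Agent.LamGold
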