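import Pool.Agent.LamGold.Basic

set_option autoImplicit false

/-!
# The odd function on `ZMod q` attached to a sign function on `[1, q/2)`
-/

namespace Pool.Agent.LamGold

/-- The odd extension of `g` from `(0, q/2)` to the integers mod `q`. -/
def FF (q : ℕ) (g : ℕ → ℤ) (a : ZMod q) : ℤ :=
  if a.val = 0 then 0 else if 2 * a.val < q then g a.val else - g (q - a.val)

variable {q : ℕ} {g : ℕ → ℤ}

theorem FF_zero : FF q g 0 = 0 := by
  unfold FF
  simp

theorem FF_nat_lt (hq : 0 < q) {x : ℕ} (h0 : 0 < x) (h : 2 * x < q) :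
    FF q g (x : ZMod q) = g x := by
  haveI : NeZero q := ⟨hq.ne'⟩
  unfold FF
  rw [ZMod.val_natCast_of_lt (by omega), if_neg (by omega), if_pos h]

theorem FF_nat_gt (hq : 0 < q) {x : ℕ} (h : q < 2 * x) (h2 : x < q) :
    FF q g (x : ZMod q) = - g (q - x) := by
  haveI : NeZero q := ⟨hq.ne'⟩
  unfold FF
  rw [ZMod.val_natCast_of_lt h2, if_neg (by omega), if_neg (by omega)]

theorem FF_neg (hq : q % 2 = 1) (a : ZMod q) : FF q g (-a) = - FF q g a := by
  haveI : NeZero q := ⟨by rintro rfl; simp at hq⟩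
  by_cases ha : a = 0
  · subst ha; simp [FF_zero]
  · haveI : NeZero a := ⟨ha⟩
    have h1 : (-a).val = q - a.val := ZMod.val_neg_of_ne_zero a
    have h2 : a.val < q := ZMod.val_lt a
    have h3 : a.val ≠ 0 := by
      intro h; exact ha ((ZMod.val_eq_zero a).1 h)
    unfold FF
    rw [h1]
    rw [if_neg (by omega), if_neg h3]
    by_cases h4 : 2 * a.val < q
    · rw [if_neg (by omega), if_pos h4]
      congr 2
      omega
    · rw [if_pos (by omega), if_neg h4]
      ring

theorem FF_val_of_ne (W : World q g) (hq : q % 2 = 1) {a : ZMod q} (ha : a ≠ 0) :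
    FF q g a = 1 ∨ FF q g a = -1 := by
  haveI : NeZero q := ⟨by rintro rfl; simp at hq⟩
  have h2 : a.val < q := ZMod.val_lt a
  have h3 : a.val ≠ 0 := by
    intro h; exact ha ((ZMod.val_eq_zero a).1 h)
  unfold FF
  rw [if_neg h3]
  split_ifs with h4
  · exact W.val _ (by omega)
  · rcases W.val (q - a.val) (by omega) with h | h <;> rw [h] <;> norm_num

theorem exists_nat_rep (hq : q % 2 = 1) {a : ZMod q} (ha : a ≠ 0) :
    ∃ x : ℕ, 0 < x ∧ 2 * x < q ∧ (a = (x : ZMod q) ∨ a = -(x : ZMod q)) := by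
  haveI : NeZero q := ⟨by rintro rfl; simp at hq⟩
  have h2 : a.val < q := ZMod.val_lt a
  have h3 : a.val ≠ 0 := by
    intro h; exact ha ((ZMod.val_eq_zero a).1 h)
  by_cases h4 : 2 * a.val < q
  · exact ⟨a.val, by omega, h4, Or.inl (by simp)⟩
  · refine ⟨q - a.val, by omega, by omega, Or.inr ?_⟩
    rw [Nat.cast_sub h2.le]
    simp

/-- `k` acts on `FF` by its sign. -/
def TT (q : ℕ) (g : ℕ → ℤ) (k : ℕ) : Prop := ∀ a : ZMod q, FF q g (k * a) = fs k * FF q g a

theorem TT_one : TT q g 1 := by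
  intro a; simp [fs_one]

theorem TT_mul {k l : ℕ} (hk0 : 0 < k) (hl0 : 0 < l) (hk : TT q g k) (hl : TT q g l) :
    TT q g (k * l) := by
  intro a
  rw [Nat.cast_mul, mul_assoc, hk, hl, fs_mul hk0 hl0, mul_assoc]

/-- `b` is bad for `p` -/
def Bad (q : ℕ) (g : ℕ → ℤ) (p : ℕ) (b : ZMod q) : Prop :=
  FF q g (p * b) ≠ fs p * FF q g b

theorem Bad.mul {p k : ℕ} {b x : ZMod q} (hq : q % 2 = 1) (hk : TT q g k)
    (hb : Bad q g p b) (hx : x = k * b ∨ x = -(k * b)) : Bad q g p x := by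
  intro h
  apply hb
  have e1 : (p : ZMod q) * (k * b) = k * (p * b) := by ring
  rcases hx with rfl | rfl
  · rw [e1, hk, hk] at h
    have := fs_ne_zero k
    apply mul_left_cancel₀ this
    rw [h]; ring
  · rw [mul_neg, FF_neg hq, FF_neg hq, e1, hk, hk] at h
    have := fs_ne_zero k
    apply mul_left_cancel₀ this
    linarith

theorem Bad.div {p k : ℕ} {x : ZMod q} (hk : TT q g k)
    (hb : Bad q g p (k * x)) : Bad q g p x := by
  intro h
  apply hb
  have e1 : (p : ZMod q) * (k * x) = k * (p * x) := by ring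
  rw [e1, hk, hk, h]; ring

/-- Multiplication by two. -/
theorem TT_two (W : World q g) (hq2 : q % 2 = 1) (hq3 : q % 3 ≠ 0) : TT q g 2 := by
  have hq0 : 0 < q := by omega
  have key : ∀ x : ℕ, 0 < x → 2 * x < q →
      FF q g ((2 : ℕ) * (x : ZMod q)) = fs 2 * FF q g x := by
    intro x hx hxq
    have e : ((2 : ℕ) : ZMod q) * (x : ZMod q) = ((2 * x : ℕ) : ZMod q) := by push_cast; ring
    rw [e, fs_two, FF_nat_lt hq0 hx hxq]
    by_cases h : 2 * (2 * x) < q
    · rw [FF_nat_lt hq0 (by omega) h, W.m2 hx]; ring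
    · rw [FF_nat_gt hq0 (by omega) (by omega)]
      have := two_key W hq2 hq3 hx (y := q - 2 * x) (by omega) (by omega) (by omega)
      rw [this]; ring
  intro a
  by_cases ha : a = 0
  · subst ha; simp [FF_zero]
  · obtain ⟨x, hx, hxq, rfl | rfl⟩ := exists_nat_rep hq2 ha
    · exact key x hx hxq
    · rw [mul_neg, FF_neg hq2, FF_neg hq2, key x hx hxq]; ring

end Pool.Agent.LamGold
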